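import Mathlib

namespace Pool.Agent.Results.MP_000f96_co.PercolatingIsFaster

open SimpleGraph Filter

/-- One round of the `H`-process: add every pair `uv` with `n_H(G + uv) > n_H(G)`, where
`G.copyCount H` (Mathlib) is the number of subgraphs of `G` isomorphic to `H`. -/
noncomputable def next {k : ℕ} (H : SimpleGraph (Fin k)) {V : Type} [Fintype V]
    (G : SimpleGraph V) : SimpleGraph V :=
  G ⊔ SimpleGraph.fromRel (fun u v => G.copyCount H < (G ⊔ edge u v).copyCount H)

/-- `G_t`, the graph after `t` rounds of the `H`-process started at `G`. -/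
noncomputable def proc {k : ℕ} (H : SimpleGraph (Fin k)) {V : Type} [Fintype V]
    (G : SimpleGraph V) (t : ℕ) : SimpleGraph V :=
  (next H)^[t] G

/-- The running time `τ_H(G) = min {t : G_t = G_{t+1}}`. -/
noncomputable def tau {k : ℕ} (H : SimpleGraph (Fin k)) {V : Type} [Fintype V]
    (G : SimpleGraph V) : ℕ :=
  sInf {t | proc H G t = proc H G (t + 1)}

/-- `G` is `H`-percolating: `G_τ` is the complete graph. -/
def Percolating {k : ℕ} (H : SimpleGraph (Fin k)) {V : Type} [Fintype V]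
    (G : SimpleGraph V) : Prop :=
  proc H G (tau H G) = ⊤

/-- `M_H(n)`: maximum running time over all graphs on `n` vertices. -/
noncomputable def maxTime {k : ℕ} (H : SimpleGraph (Fin k)) (n : ℕ) : ℕ :=
  sSup {m | ∃ G : SimpleGraph (Fin n), tau H G = m}

/-- `M'_H(n)`: maximum running time over all `H`-percolating graphs on `n` vertices. -/
noncomputable def maxPercTime {k : ℕ} (H : SimpleGraph (Fin k)) (n : ℕ) : ℕ :=
  sSup {m | ∃ G : SimpleGraph (Fin n), Percolating H G ∧ tau H G = m}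

section Basic

variable {k : ℕ} {H : SimpleGraph (Fin k)} {V : Type} [Fintype V]

/-- `p q` is an edge of `G + uv`. -/
def Ext (G : SimpleGraph V) (u v p q : V) : Prop :=
  G.Adj p q ∨ (p = u ∧ q = v) ∨ (p = v ∧ q = u)

theorem copyCount_lt_iff (G : SimpleGraph V) {u v : V} (huv : u ≠ v) (hn : ¬ G.Adj u v) :
    G.copyCount H < (G ⊔ edge u v).copyCount H ↔
      ∃ f : Fin k → V, Function.Injective f ∧ (∀ i j, H.Adj i j → Ext G u v (f i) (f j)) ∧
        ∃ i j, H.Adj i j ∧ f i = u ∧ f j = v := by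
  classical
  set G' := G ⊔ edge u v with hG'
  have hle : G ≤ G' := le_sup_left
  have hadj : ∀ p q, G'.Adj p q ↔ Ext G u v p q := by
    intro p q
    simp only [hG', sup_adj, edge_adj, Ext]
    constructor
    · rintro (h | ⟨h, -⟩)
      · exact Or.inl h
      · exact Or.inr h
    · rintro (h | ⟨rfl, rfl⟩ | ⟨rfl, rfl⟩)
      · exact Or.inl h
      · exact Or.inr ⟨Or.inl ⟨rfl, rfl⟩, huv⟩
      · exact Or.inr ⟨Or.inr ⟨rfl, rfl⟩, huv.symm⟩
  -- the embedding of subgraphs
  let φ : G.Subgraph → G'.Subgraph := fun S =>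
    { verts := S.verts
      Adj := S.Adj
      adj_sub := fun h => hle (S.adj_sub h)
      edge_vert := fun h => S.edge_vert h
      symm := S.symm }
  have hφ : Function.Injective φ := by
    intro S T h
    have h1 : (φ S).verts = (φ T).verts := by rw [h]
    have h2 : (φ S).Adj = (φ T).Adj := by rw [h]
    exact Subgraph.ext h1 h2
  have hφiso : ∀ S : G.Subgraph, Nonempty (H ≃g S.coe) → Nonempty (H ≃g (φ S).coe) := by
    rintro S ⟨e⟩
    exact ⟨⟨e.toEquiv, e.map_rel_iff⟩⟩
  unfold copyCount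
  constructor
  · intro hlt
    by_contra hno
    push Not at hno
    apply absurd hlt
    rw [not_lt]
    refine Finset.card_le_card_of_surjOn φ ?_
    intro S' hS'
    simp only [Finset.coe_filter, Finset.mem_univ, true_and, Set.mem_ofPred_eq] at hS'
    obtain ⟨e⟩ := hS'
    have hsub : ∀ a b, S'.Adj a b → G.Adj a b := by
      intro a b hab
      by_contra hnab
      have hf : Function.Injective (fun i => ((e i : S'.verts) : V)) := by
        intro i j hij
        exact e.injective (Subtype.ext hij)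
      have hedge : ∀ i j, H.Adj i j → Ext G u v (e i : S'.verts) (e j : S'.verts) := by
        intro i j hij
        have : S'.coe.Adj (e i) (e j) := e.map_rel_iff.2 hij
        exact (hadj _ _).1 (S'.adj_sub this)
      have ha : a ∈ S'.verts := S'.edge_vert hab
      have hb : b ∈ S'.verts := S'.edge_vert hab.symm
      have hH : H.Adj (e.symm ⟨a, ha⟩) (e.symm ⟨b, hb⟩) := by
        apply e.map_rel_iff.1
        simpa using hab
      have hab' := (hadj _ _).1 (S'.adj_sub hab)
      rcases hab' with h | ⟨h1, h2⟩ | ⟨h1, h2⟩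
      · exact hnab h
      · exact hno _ hf hedge _ _ hH (by simpa using h1) (by simpa using h2)
      · exact hno _ hf hedge _ _ hH.symm (by simpa using h2) (by simpa using h1)
    refine ⟨{ verts := S'.verts
              Adj := S'.Adj
              adj_sub := fun h => hsub _ _ h
              edge_vert := fun h => S'.edge_vert h
              symm := S'.symm }, ?_, ?_⟩
    · simp only [Finset.coe_filter, Finset.mem_univ, true_and, Set.mem_ofPred_eq]
      exact ⟨⟨e.toEquiv, e.map_rel_iff⟩⟩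
    · exact Subgraph.ext rfl rfl
  · rintro ⟨f, hf, hedge, i, j, hij, hi, hj⟩
    have hcard : (Finset.univ.filter (fun S : G.Subgraph => Nonempty (H ≃g S.coe))).card
        = ((Finset.univ.filter (fun S : G.Subgraph => Nonempty (H ≃g S.coe))).image φ).card :=
      (Finset.card_image_of_injective _ hφ).symm
    rw [hcard]
    apply Finset.card_lt_card
    rw [Finset.ssubset_iff_of_subset]
    · let c : Copy H G' := ⟨⟨f, fun {a b} h => (hadj _ _).2 (hedge a b h)⟩, hf⟩
      refine ⟨c.toSubgraph, ?_, ?_⟩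
      · simp only [Finset.mem_filter, Finset.mem_univ, true_and]
        exact ⟨c.isoToSubgraph⟩
      · intro hmem
        rw [Finset.mem_image] at hmem
        obtain ⟨S, -, hS⟩ := hmem
        apply hn
        have : (c.toSubgraph).Adj u v := by
          refine ⟨i, j, ?_, hi, hj⟩
          exact hij
        rw [← hS] at this
        exact S.adj_sub this
    · intro S' hS'
      rw [Finset.mem_image] at hS'
      obtain ⟨S, hS, rfl⟩ := hS'
      simp only [Finset.mem_filter, Finset.mem_univ, true_and] at hS ⊢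
      exact hφiso S hS

theorem next_adj (G : SimpleGraph V) (u v : V) :
    (next H G).Adj u v ↔ G.Adj u v ∨ (u ≠ v ∧ ¬ G.Adj u v ∧
      ∃ f : Fin k → V, Function.Injective f ∧ (∀ i j, H.Adj i j → Ext G u v (f i) (f j)) ∧
        ∃ i j, H.Adj i j ∧ f i = u ∧ f j = v) := by
  classical
  by_cases hadj : G.Adj u v
  · simp [next, hadj]
  · simp only [next, sup_adj, hadj, false_or, fromRel_adj, not_false_eq_true, true_and]
    constructor
    · rintro ⟨huv, h⟩
      refine ⟨huv, ?_⟩
      have h' : G.copyCount H < (G ⊔ edge u v).copyCount H := by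
        rcases h with h | h
        · exact h
        · rwa [edge_comm] at h
      exact (copyCount_lt_iff G huv hadj).1 h'
    · rintro ⟨huv, h⟩
      exact ⟨huv, Or.inl ((copyCount_lt_iff G huv hadj).2 h)⟩

end Basic


/-- The rule graph: a `K_5` on `{0,…,4}` and, disjoint from it, a `K_6` on `{5,…,10}` together
with a vertex `11` joined to exactly the two vertices `5` and `6`. -/
def HH : SimpleGraph (Fin 12) :=
  SimpleGraph.fromRel (fun a b => (a.val < 5 ∧ b.val < 5) ∨
    (5 ≤ a.val ∧ a.val < 11 ∧ 5 ≤ b.val ∧ b.val < 11) ∨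
    (a.val = 11 ∧ (b.val = 5 ∨ b.val = 6)))

theorem HH_adj_iff (a b : Fin 12) : HH.Adj a b ↔ a ≠ b ∧ ((a.val < 5 ∧ b.val < 5) ∨
    (5 ≤ a.val ∧ a.val < 11 ∧ 5 ≤ b.val ∧ b.val < 11) ∨
    (a.val = 11 ∧ (b.val = 5 ∨ b.val = 6)) ∨ (b.val = 11 ∧ (a.val = 5 ∨ a.val = 6))) := by
  simp only [HH, SimpleGraph.fromRel_adj]
  tauto

instance : DecidableRel HH.Adj := fun a b => decidable_of_iff _ (HH_adj_iff a b).symm

theorem HH_triangle : ∀ a b : Fin 12, HH.Adj a b → ∃ c, HH.Adj a c ∧ HH.Adj b c := by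
  decide

section Rules

variable {V : Type} [Fintype V]

theorem le_next {k : ℕ} (H : SimpleGraph (Fin k)) (G : SimpleGraph V) : G ≤ next H G := le_sup_left

/-- near-clique: all pairs are edges of `G + uv` -/
def Near (G : SimpleGraph V) (u v : V) (X : Finset V) : Prop :=
  ∀ p ∈ X, ∀ q ∈ X, p ≠ q → Ext G u v p q

theorem elim_new {G : SimpleGraph V} {u v : V} (h : (next HH G).Adj u v) (hn : ¬ G.Adj u v) :
    (∃ z, G.Adj u z ∧ G.Adj v z) ∧
    ((∃ X : Finset V, X.card = 5 ∧ u ∈ X ∧ v ∈ X ∧ Near G u v X) ∨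
     (∃ X : Finset V, X.card = 6 ∧ (u ∈ X ∨ v ∈ X) ∧ Near G u v X)) := by
  classical
  rw [next_adj] at h
  rcases h with h | ⟨huv, -, f, hf, hedge, i, j, hij, hi, hj⟩
  · exact absurd h hn
  constructor
  · obtain ⟨c, hc1, hc2⟩ := HH_triangle i j hij
    refine ⟨f c, ?_, ?_⟩
    · rcases hedge i c hc1 with h | ⟨h1, h2⟩ | ⟨h1, h2⟩
      · rwa [hi] at h
      · exact absurd (hf (h2.trans hj.symm)) hc2.ne'
      · exact absurd (hi.symm.trans h1) huv
    · rcases hedge j c hc2 with h | ⟨h1, h2⟩ | ⟨h1, h2⟩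
      · rwa [hj] at h
      · exact absurd (hj.symm.trans h1) huv.symm
      · exact absurd (hf (h2.trans hi.symm)) hc1.ne'
  · have hnear : ∀ P : Fin 12 → Prop, (∀ a b, P a → P b → a ≠ b → HH.Adj a b) →
        ∀ [DecidablePred P], Near G u v ((Finset.univ.filter P).image f) := by
      intro P hP _ p hp q hq hpq
      rw [Finset.mem_image] at hp hq
      obtain ⟨a, ha, rfl⟩ := hp
      obtain ⟨b, hb, rfl⟩ := hq
      simp only [Finset.mem_filter, Finset.mem_univ, true_and] at ha hb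
      exact hedge a b (hP a b ha hb (fun h => hpq (by rw [h])))
    by_cases h5 : i.val < 5 ∧ j.val < 5
    · left
      refine ⟨(Finset.univ.filter (fun a : Fin 12 => a.val < 5)).image f, ?_, ?_, ?_, ?_⟩
      · rw [Finset.card_image_of_injective _ hf]
        decide
      · rw [Finset.mem_image]
        exact ⟨i, by simp [h5.1], hi⟩
      · rw [Finset.mem_image]
        exact ⟨j, by simp [h5.2], hj⟩
      · apply hnear
        intro a b ha hb hab
        rw [HH_adj_iff]
        exact ⟨hab, Or.inl ⟨ha, hb⟩⟩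
    · right
      refine ⟨(Finset.univ.filter (fun a : Fin 12 => 5 ≤ a.val ∧ a.val < 11)).image f, ?_, ?_, ?_⟩
      · rw [Finset.card_image_of_injective _ hf]
        decide
      · rw [HH_adj_iff] at hij
        have : (5 ≤ i.val ∧ i.val < 11) ∨ (5 ≤ j.val ∧ j.val < 11) := by omega
        rcases this with h | h
        · left
          rw [Finset.mem_image]
          exact ⟨i, by simp [h.1, h.2], hi⟩
        · right
          rw [Finset.mem_image]
          exact ⟨j, by simp [h.1, h.2], hj⟩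
      · apply hnear
        intro a b ha hb hab
        rw [HH_adj_iff]
        exact ⟨hab, Or.inr (Or.inl ⟨ha.1, ha.2, hb.1, hb.2⟩)⟩

theorem intro_new {G : SimpleGraph V} {u v : V} (huv : u ≠ v)
    (x : Fin 5 → V) (y : Fin 6 → V) (w : V)
    (hx : Function.Injective x) (hy : Function.Injective y)
    (hxy : ∀ i j, x i ≠ y j) (hxw : ∀ i, x i ≠ w) (hyw : ∀ i, y i ≠ w)
    (hX : ∀ i j, i ≠ j → Ext G u v (x i) (x j))
    (hY : ∀ i j, i ≠ j → Ext G u v (y i) (y j))
    (hw0 : Ext G u v w (y 0)) (hw1 : Ext G u v w (y 1))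
    (he : (x 0 = u ∧ x 1 = v) ∨ (w = u ∧ y 1 = v)) :
    (next HH G).Adj u v := by
  classical
  by_cases hn : G.Adj u v
  · exact le_next _ _ hn
  have hExtsymm : ∀ p q, Ext G u v p q → Ext G u v q p := by
    rintro p q (h | ⟨h1, h2⟩ | ⟨h1, h2⟩)
    · exact Or.inl h.symm
    · exact Or.inr (Or.inr ⟨h2, h1⟩)
    · exact Or.inr (Or.inl ⟨h2, h1⟩)
  rw [next_adj]
  right
  refine ⟨huv, hn, ?_⟩
  let f : Fin 12 → V := fun i =>
    if h : i.val < 5 then x ⟨i.val, h⟩ else
      if h' : i.val < 11 then y ⟨i.val - 5, by omega⟩ else w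
  have f5 : ∀ (i : Fin 12) (h : i.val < 5), f i = x ⟨i.val, h⟩ := by
    intro i h
    simp only [f, h, dif_pos]
  have f6 : ∀ (i : Fin 12) (h1 : 5 ≤ i.val) (h : i.val < 11), f i = y ⟨i.val - 5, by omega⟩ := by
    intro i h1 h
    have : ¬ i.val < 5 := by omega
    simp only [f, this, dif_neg, not_false_eq_true, h, dif_pos]
  have f11 : ∀ (i : Fin 12) (h : i.val = 11), f i = w := by
    intro i h
    have h1 : ¬ i.val < 5 := by omega
    have h2 : ¬ i.val < 11 := by omega
    simp only [f, h1, h2, dif_neg, not_false_eq_true]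
  have hcases : ∀ i : Fin 12, i.val < 5 ∨ (5 ≤ i.val ∧ i.val < 11) ∨ i.val = 11 := by
    intro i; omega
  refine ⟨f, ?_, ?_, ?_⟩
  · intro a b hab
    rcases hcases a with ha | ⟨ha, ha'⟩ | ha <;> rcases hcases b with hb | ⟨hb, hb'⟩ | hb
    · rw [f5 a ha, f5 b hb] at hab
      have := hx hab
      simp only [Fin.mk.injEq] at this
      exact Fin.ext this
    · rw [f5 a ha, f6 b hb hb'] at hab
      exact absurd hab (hxy _ _)
    · rw [f5 a ha, f11 b hb] at hab
      exact absurd hab (hxw _)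
    · rw [f6 a ha ha', f5 b hb] at hab
      exact absurd hab.symm (hxy _ _)
    · rw [f6 a ha ha', f6 b hb hb'] at hab
      have := hy hab
      simp only [Fin.mk.injEq] at this
      apply Fin.ext
      omega
    · rw [f6 a ha ha', f11 b hb] at hab
      exact absurd hab (hyw _)
    · rw [f11 a ha, f5 b hb] at hab
      exact absurd hab.symm (hxw _)
    · rw [f11 a ha, f6 b hb hb'] at hab
      exact absurd hab.symm (hyw _)
    · apply Fin.ext
      omega
  · have key : ∀ b : Fin 12, (b.val = 5 ∨ b.val = 6) → Ext G u v w (f b) := by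
      rintro b (hb | hb)
      · rw [f6 b (by omega) (by omega)]
        have : (⟨b.val - 5, by omega⟩ : Fin 6) = 0 := by
          apply Fin.ext
          simp [hb]
        rw [this]; exact hw0
      · rw [f6 b (by omega) (by omega)]
        have : (⟨b.val - 5, by omega⟩ : Fin 6) = 1 := by
          apply Fin.ext
          simp [hb]
        rw [this]; exact hw1
    intro a b hab
    rw [HH_adj_iff] at hab
    obtain ⟨hne, h | h | h | h⟩ := hab
    · rw [f5 a h.1, f5 b h.2]
      apply hX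
      intro h'
      simp only [Fin.mk.injEq] at h'
      exact hne (Fin.ext h')
    · rw [f6 a h.1 h.2.1, f6 b h.2.2.1 h.2.2.2]
      apply hY
      intro h'
      simp only [Fin.mk.injEq] at h'
      apply hne
      apply Fin.ext
      omega
    · rw [f11 a h.1]
      exact key b h.2
    · rw [f11 b h.1]
      exact hExtsymm _ _ (key a h.2)
  · rcases he with ⟨h0, h1⟩ | ⟨h0, h1⟩
    · refine ⟨0, 1, by decide, ?_, ?_⟩
      · rw [f5 0 (by decide)]
        exact h0
      · rw [f5 1 (by decide)]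
        exact h1
    · refine ⟨11, 6, by decide, ?_, ?_⟩
      · rw [f11 11 (by decide)]
        exact h0
      · rw [f6 6 (by decide) (by decide)]
        exact h1

omit [Fintype V] in
theorem exists_fn (m : ℕ) (S : Finset V) {a b : V} (ha : a ∈ S) (hb : b ∈ S) (hab : a ≠ b)
    (hc : m + 2 ≤ S.card) :
    ∃ y : Fin (m + 2) → V, Function.Injective y ∧ (∀ i, y i ∈ S) ∧ y 0 = a ∧ y 1 = b := by
  classical
  have hc' : m ≤ ((S.erase a).erase b).card := by
    rw [Finset.card_erase_of_mem, Finset.card_erase_of_mem ha]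
    · omega
    · exact Finset.mem_erase.2 ⟨hab.symm, hb⟩
  obtain ⟨T, hT, hTc⟩ := Finset.exists_subset_card_eq hc'
  let z : Fin m ≃ T := (T.equivFinOfCardEq hTc).symm
  have hz : ∀ i, (z i : V) ∈ S ∧ (z i : V) ≠ a ∧ (z i : V) ≠ b := by
    intro i
    have h := hT (z i).2
    rw [Finset.mem_erase, Finset.mem_erase] at h
    exact ⟨h.2.2, h.2.1, h.1⟩
  refine ⟨Fin.cons a (Fin.cons b (fun i => (z i : V))), ?_, ?_, rfl, rfl⟩
  · rw [Fin.cons_injective_iff, Fin.cons_injective_iff]
    refine ⟨?_, ?_, ?_⟩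
    · rintro ⟨i, hi⟩
      revert hi
      refine Fin.cases ?_ ?_ i
      · intro hi
        exact hab hi.symm
      · intro i hi
        exact (hz i).2.1 hi
    · rintro ⟨i, hi⟩
      exact (hz i).2.2 hi
    · intro i j hij
      exact z.injective (Subtype.ext hij)
  · intro i
    refine Fin.cases ha (fun i => ?_) i
    refine Fin.cases hb (fun i => ?_) i
    exact (hz i).1


/-- The `K_5`-rule: a near-clique on five vertices is completed if there is a disjoint clique on
at least seven vertices. -/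
theorem k5_rule {G : SimpleGraph V} {u v : V} {X S : Finset V} (hX : X.card = 5) (hu : u ∈ X)
    (hv : v ∈ X) (huv : u ≠ v) (hnear : Near G u v X) (hS : 7 ≤ S.card)
    (hSc : G.IsClique (S : Set V)) (hd : Disjoint X S) : (next HH G).Adj u v := by
  classical
  obtain ⟨x, hx, hxX, hx0, hx1⟩ := exists_fn 3 X hu hv huv (by omega)
  obtain ⟨a, b, ha, hb, hab⟩ := Finset.one_lt_card_iff.1 (show 1 < S.card by omega)
  obtain ⟨y, hy, hyS, -, -⟩ := exists_fn 5 S ha hb hab (by omega)
  have hdisj : ∀ p ∈ X, ∀ q ∈ S, p ≠ q := by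
    rintro p hp q hq rfl
    exact (Finset.disjoint_left.1 hd) hp hq
  have hadj : ∀ i j, i ≠ j → G.Adj (y i) (y j) := by
    intro i j hij
    exact hSc (hyS i) (hyS j) (fun h => hij (hy h))
  refine intro_new huv x (fun i => y (Fin.castSucc i)) (y 6) hx ?_ ?_ ?_ ?_ ?_ ?_ ?_ ?_
    (Or.inl ⟨hx0, hx1⟩)
  · intro i j hij
    exact Fin.castSucc_injective _ (hy hij)
  · intro i j
    exact hdisj _ (hxX i) _ (hyS _)
  · intro i
    exact hdisj _ (hxX i) _ (hyS _)
  · intro i h
    have h2 := congrArg Fin.val (hy h)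
    simp at h2
    omega
  · intro i j hij
    exact hnear _ (hxX i) _ (hxX j) (fun h => hij (hx h))
  · intro i j hij
    exact Or.inl (hadj _ _ (fun h => hij (Fin.castSucc_injective _ h)))
  · exact Or.inl (hadj _ _ (by decide))
  · exact Or.inl (hadj _ _ (by decide))

/-- The ear rule. -/
theorem ear_rule {G : SimpleGraph V} {v a b : V} {S R : Finset V} (hS : 6 ≤ S.card)
    (hSc : G.IsClique (S : Set V)) (ha : a ∈ S) (hb : b ∈ S) (hv : v ∉ S) (hva : G.Adj v a)
    (hR : 5 ≤ R.card) (hRc : G.IsClique (R : Set V)) (hd : Disjoint R S) (hvR : v ∉ R) :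
    (next HH G).Adj v b := by
  classical
  by_cases hab : a = b
  · subst hab
    exact le_next _ _ hva
  obtain ⟨y, hy, hyS, hy0, hy1⟩ := exists_fn 4 S ha hb hab (by omega)
  obtain ⟨c, d, hc, hdd, hcd⟩ := Finset.one_lt_card_iff.1 (show 1 < R.card by omega)
  obtain ⟨x, hx, hxR, -, -⟩ := exists_fn 3 R hc hdd hcd (by omega)
  have hvb : v ≠ b := by
    rintro rfl
    exact hv hb
  refine intro_new hvb x y v hx hy ?_ ?_ ?_ ?_ ?_ ?_ ?_ (Or.inr ⟨rfl, hy1⟩)
  · intro i j h
    exact (Finset.disjoint_left.1 hd) (hxR i) (h ▸ hyS j)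
  · intro i h
    exact hvR (h ▸ hxR i)
  · intro i h
    exact hv (h ▸ hyS i)
  · intro i j hij
    exact Or.inl (hRc (hxR i) (hxR j) (fun h => hij (hx h)))
  · intro i j hij
    exact Or.inl (hSc (hyS i) (hyS j) (fun h => hij (hy h)))
  · left
    rw [hy0]
    exact hva
  · right
    left
    exact ⟨rfl, hy1⟩

theorem grow {G : SimpleGraph V} [DecidableEq V] {v a : V} {A R : Finset V} (hA : 6 ≤ A.card)
    (hAc : G.IsClique (A : Set V)) (ha : a ∈ A) (hv : v ∉ A) (hva : G.Adj v a)
    (hR : 5 ≤ R.card) (hRc : G.IsClique (R : Set V)) (hd : Disjoint R A) (hvR : v ∉ R) :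
    (next HH G).IsClique ((insert v A : Finset V) : Set V) := by
  intro p hp q hq hpq
  rw [Finset.mem_coe, Finset.mem_insert] at hp hq
  rcases hp with rfl | hp <;> rcases hq with rfl | hq
  · exact absurd rfl hpq
  · exact ear_rule hA hAc ha hq hv hva hR hRc hd hvR
  · exact (ear_rule hA hAc ha hp hv hva hR hRc hd hvR).symm
  · exact le_next _ _ (hAc hp hq hpq)

theorem grow_big {G : SimpleGraph V} [DecidableEq V] {v a : V} {A : Finset V} (hA : 11 ≤ A.card)
    (hAc : G.IsClique (A : Set V)) (ha : a ∈ A) (hv : v ∉ A) (hva : G.Adj v a) :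
    (next HH G).IsClique ((insert v A : Finset V) : Set V) := by
  have key : ∀ b ∈ A, (next HH G).Adj v b := by
    intro b hb
    have h2 : ({a, b} : Finset V) ⊆ A := by
      intro x hx
      simp only [Finset.mem_insert, Finset.mem_singleton] at hx
      rcases hx with rfl | rfl
      · exact ha
      · exact hb
    obtain ⟨S, hS1, hS2, hS3⟩ := Finset.exists_subsuperset_card_eq h2 (n := 6)
      (Finset.card_le_two.trans (by norm_num)) (by omega)
    have hSA : (S : Set V) ⊆ A := by exact_mod_cast hS2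
    refine ear_rule (S := S) (R := A \ S) (by omega) (hAc.subset hSA)
      (hS1 (by simp)) (hS1 (by simp)) (fun h => hv (hS2 h)) hva ?_ ?_ ?_ ?_
    · rw [Finset.card_sdiff_of_subset hS2]
      omega
    · apply hAc.subset
      intro x hx
      rw [Finset.mem_coe, Finset.mem_sdiff] at hx
      exact hx.1
    · exact Finset.sdiff_disjoint
    · intro h
      rw [Finset.mem_sdiff] at h
      exact hv h.1
  intro p hp q hq hpq
  rw [Finset.mem_coe, Finset.mem_insert] at hp hq
  rcases hp with rfl | hp <;> rcases hq with rfl | hq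
  · exact absurd rfl hpq
  · exact key _ hq
  · exact (key _ hp).symm
  · exact le_next _ _ (hAc hp hq hpq)

/-- What the first round provides. -/
theorem start {G : SimpleGraph V} [DecidableEq V] {u v : V} (h : (next HH G).Adj u v)
    (hn : ¬ G.Adj u v) :
    12 ≤ Fintype.card V ∧ ∃ (Q R : Finset V) (w a : V), Q.card = 6 ∧ R.card = 5 ∧
      (next HH G).IsClique (Q : Set V) ∧ (next HH G).IsClique (R : Set V) ∧ Disjoint R Q ∧
      w ∉ Q ∧ w ∉ R ∧ a ∈ Q ∧ (next HH G).Adj w a := by
  have huv' := h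
  rw [next_adj] at h
  rcases h with h | ⟨huv, -, f, hf, hedge, -⟩
  · exact absurd h hn
  have hadj : ∀ i j, HH.Adj i j → (next HH G).Adj (f i) (f j) := by
    intro i j hij
    rcases hedge i j hij with h | ⟨h1, h2⟩ | ⟨h1, h2⟩
    · exact le_next _ _ h
    · rw [h1, h2]; exact huv'
    · rw [h1, h2]; exact huv'.symm
  refine ⟨?_, ?_⟩
  · have := Fintype.card_le_of_injective f hf
    simpa using this
  · refine ⟨(Finset.univ.filter (fun a : Fin 12 => 5 ≤ a.val ∧ a.val < 11)).image f,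
      (Finset.univ.filter (fun a : Fin 12 => a.val < 5)).image f, f 11, f 5, ?_, ?_, ?_, ?_,
      ?_, ?_, ?_, ?_, ?_⟩
    · rw [Finset.card_image_of_injective _ hf]
      decide
    · rw [Finset.card_image_of_injective _ hf]
      decide
    · intro p hp q hq hpq
      rw [Finset.mem_coe, Finset.mem_image] at hp hq
      obtain ⟨a, ha, rfl⟩ := hp
      obtain ⟨b, hb, rfl⟩ := hq
      simp only [Finset.mem_filter, Finset.mem_univ, true_and] at ha hb
      apply hadj
      rw [HH_adj_iff]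
      exact ⟨fun h => hpq (by rw [h]), Or.inr (Or.inl ⟨ha.1, ha.2, hb.1, hb.2⟩)⟩
    · intro p hp q hq hpq
      rw [Finset.mem_coe, Finset.mem_image] at hp hq
      obtain ⟨a, ha, rfl⟩ := hp
      obtain ⟨b, hb, rfl⟩ := hq
      simp only [Finset.mem_filter, Finset.mem_univ, true_and] at ha hb
      apply hadj
      rw [HH_adj_iff]
      exact ⟨fun h => hpq (by rw [h]), Or.inl ⟨ha, hb⟩⟩
    · rw [Finset.disjoint_left]
      intro p hp hq
      rw [Finset.mem_image] at hp hq
      obtain ⟨a, ha, rfl⟩ := hp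
      obtain ⟨b, hb, hab⟩ := hq
      simp only [Finset.mem_filter, Finset.mem_univ, true_and] at ha hb
      have := hf hab
      omega
    · intro hq
      rw [Finset.mem_image] at hq
      obtain ⟨b, hb, hab⟩ := hq
      simp only [Finset.mem_filter, Finset.mem_univ, true_and] at hb
      have := congrArg Fin.val (hf hab)
      simp at this
      omega
    · intro hq
      rw [Finset.mem_image] at hq
      obtain ⟨b, hb, hab⟩ := hq
      simp only [Finset.mem_filter, Finset.mem_univ, true_and] at hb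
      have := congrArg Fin.val (hf hab)
      simp at this
      omega
    · rw [Finset.mem_image]
      exact ⟨5, by decide, rfl⟩
    · exact hadj 11 5 (by decide)

end Rules

section Upper

variable {V : Type} [Fintype V] [DecidableEq V]

omit [DecidableEq V] in
theorem proc_succ {k : ℕ} (H : SimpleGraph (Fin k)) (G : SimpleGraph V) (t : ℕ) :
    proc H G (t + 1) = next H (proc H G t) :=
  Function.iterate_succ_apply' _ _ _

omit [DecidableEq V] in
theorem proc_mono {k : ℕ} (H : SimpleGraph (Fin k)) (G : SimpleGraph V) {s t : ℕ} (h : s ≤ t) :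
    proc H G s ≤ proc H G t := by
  induction t, h using Nat.le_induction with
  | base => exact le_rfl
  | succ t _ ih =>
    rw [proc_succ]
    exact ih.trans (le_next _ _)

omit [DecidableEq V] in
theorem no_cross_next {G : SimpleGraph V} {A : Finset V} (h : ∀ a ∈ A, ∀ v ∉ A, ¬ G.Adj v a) :
    ∀ a ∈ A, ∀ v ∉ A, ¬ (next HH G).Adj v a := by
  intro a ha v hv hadj
  obtain ⟨⟨z, hz1, hz2⟩, -⟩ := elim_new hadj (h a ha v hv)
  by_cases hz : z ∈ A
  · exact h z hz v hv hz1
  · exact h a ha z hz hz2.symm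

omit [DecidableEq V] in
theorem exists_cross {G : SimpleGraph V} {T : ℕ} (hT : proc HH G T = ⊤) (t : ℕ) {A : Finset V}
    (hA : A.Nonempty) (hA' : A.card < Fintype.card V) :
    ∃ a ∈ A, ∃ v, v ∉ A ∧ (proc HH G t).Adj v a := by
  by_contra hno
  push Not at hno
  have key : ∀ s, t ≤ s → ∀ a ∈ A, ∀ v ∉ A, ¬ (proc HH G s).Adj v a := by
    intro s hs
    induction s, hs using Nat.le_induction with
    | base => exact hno
    | succ s _ ih =>
      rw [proc_succ]
      exact no_cross_next ih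
  obtain ⟨a, ha⟩ := hA
  obtain ⟨v, hv⟩ : ∃ v, v ∉ A := by
    by_contra hall
    push Not at hall
    have : A = Finset.univ := Finset.eq_univ_iff_forall.2 hall
    rw [this, Finset.card_univ] at hA'
    exact lt_irrefl _ hA'
  have h1 : (proc HH G T).Adj v a := by
    rw [hT, top_adj]
    rintro rfl
    exact hv ha
  exact key (max t T) (le_max_left _ _) a ha v hv (proc_mono _ _ (le_max_right t T) h1)

/-- Every 5-clique outside `A` contains every outside neighbour of `A`. -/
def Blocked (G : SimpleGraph V) (A : Finset V) : Prop :=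
  ∀ X : Finset V, X.card = 5 → G.IsClique (X : Set V) → Disjoint X A →
    ∀ v, v ∉ A → (∃ a ∈ A, G.Adj v a) → v ∈ X

theorem pure_edge {G : SimpleGraph V} {A R : Finset V} {u v v0 a0 : V} (hb : Blocked G A)
    (hb' : Blocked (next HH G) A) (hR : R.card = 5) (hRc : G.IsClique (R : Set V))
    (hd : Disjoint R A) (hv0 : v0 ∉ A) (ha0 : a0 ∈ A) (hv0a0 : G.Adj v0 a0)
    (hnew : (next HH G).Adj u v) (hn : ¬ G.Adj u v) (huA : u ∉ A) (huR : u ∉ R)
    (hvA : v ∉ A) (hvR : v ∉ R) :
    ∃ X : Finset V, X.card = 5 ∧ u ∈ X ∧ v ∈ X ∧ Near G u v X ∧ Disjoint X A := by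
  have hdisj : ∀ X : Finset V, (u ∈ X ∨ v ∈ X) → Near G u v X → Disjoint X A := by
    intro X hX hnear
    rw [Finset.disjoint_left]
    intro a haX haA
    rcases hX with hX | hX
    · have hau : a ≠ u := fun h => huA (h ▸ haA)
      rcases hnear u hX a haX hau.symm with h | ⟨-, h⟩ | ⟨-, h⟩
      · exact huR (hb R hR hRc hd u huA ⟨a, haA, h⟩)
      · exact hvA (h ▸ haA)
      · exact hau h
    · have hav : a ≠ v := fun h => hvA (h ▸ haA)
      rcases hnear v hX a haX hav.symm with h | ⟨-, h⟩ | ⟨-, h⟩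
      · exact hvR (hb R hR hRc hd v hvA ⟨a, haA, h⟩)
      · exact hav h
      · exact huA (h ▸ haA)
  rcases (elim_new hnew hn).2 with ⟨X, hX, huX, hvX, hnear⟩ | ⟨X, hX, huX, hnear⟩
  · exact ⟨X, hX, huX, hvX, hnear, hdisj X (Or.inl huX) hnear⟩
  · exfalso
    have hXA := hdisj X huX hnear
    have hcl : (next HH G).IsClique (X : Set V) := by
      intro p hp q hq hpq
      rcases hnear p hp q hq hpq with h | ⟨h1, h2⟩ | ⟨h1, h2⟩
      · exact le_next _ _ h
      · rw [h1, h2]; exact hnew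
      · rw [h1, h2]; exact hnew.symm
    have hc : 5 ≤ (X.erase v0).card := by
      have := Finset.pred_card_le_card_erase (s := X) (a := v0)
      omega
    obtain ⟨Y, hY, hYc⟩ := Finset.exists_subset_card_eq hc
    have hYX : Y ⊆ X := hY.trans (Finset.erase_subset _ _)
    have h1 := hb' Y hYc (hcl.subset (by exact_mod_cast hYX))
      (Finset.disjoint_of_subset_left hYX hXA) v0 hv0 ⟨a0, ha0, le_next _ _ hv0a0⟩
    exact (Finset.mem_erase.1 (hY h1)).1 rfl

theorem two_steps {G G1 G2 G3 : SimpleGraph V} (h1 : G1 = next HH G) (h2 : G2 = next HH G1)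
    (h3 : G3 = next HH G2) {A R : Finset V} {v0 a0 : V}
    (hb : Blocked G A) (hb1 : Blocked G1 A) (hb2 : Blocked G2 A) (hb3 : Blocked G3 A)
    (hA : 7 ≤ A.card) (hAc : G.IsClique (A : Set V))
    (hR : R.card = 5) (hRc : G.IsClique (R : Set V))
    (hd : Disjoint R A) (hv0 : v0 ∉ A) (ha0 : a0 ∈ A) (hv0a0 : G.Adj v0 a0) (hne : G1 ≠ G2) :
    ∃ x ∈ A ∪ R, ∃ y, G2.Adj x y ∧ ¬ G.Adj x y := by
  by_contra hno
  push Not at hno
  have l1 : G ≤ G1 := h1 ▸ le_next _ _
  have l2 : G1 ≤ G2 := h2 ▸ le_next _ _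
  have l3 : G2 ≤ G3 := h3 ▸ le_next _ _
  have l12 : G ≤ G2 := l1.trans l2
  have l13 : G ≤ G3 := l12.trans l3
  have hout : ∀ x y, G2.Adj x y → ¬ G.Adj x y → (x ∉ A ∧ x ∉ R) ∧ (y ∉ A ∧ y ∉ R) := by
    intro x y hxy hn
    constructor
    · constructor
      · intro hx
        exact hn (hno x (Finset.mem_union_left _ hx) y hxy)
      · intro hx
        exact hn (hno x (Finset.mem_union_right _ hx) y hxy)
    · constructor
      · intro hy
        exact hn (hno y (Finset.mem_union_left _ hy) x hxy.symm).symm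
      · intro hy
        exact hn (hno y (Finset.mem_union_right _ hy) x hxy.symm).symm
  -- a new edge at the second step
  obtain ⟨u2, v2, hnew2, hn2⟩ : ∃ u v, G2.Adj u v ∧ ¬ G1.Adj u v := by
    by_contra hall
    push Not at hall
    exact hne (le_antisymm l2 (fun u v h => hall u v h))
  have hn2' : ¬ G.Adj u2 v2 := fun h => hn2 (l1 h)
  obtain ⟨⟨hu2A, hu2R⟩, ⟨hv2A, hv2R⟩⟩ := hout u2 v2 hnew2 hn2'
  have hRA1 : G1.IsClique (R : Set V) := hRc.mono l1
  obtain ⟨X2, hX2, hu2, hv2, hnear2, hd2⟩ := pure_edge hb1 (h2 ▸ hb2) hR hRA1 hd hv0 ha0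
    (l1 hv0a0) (h2 ▸ hnew2) hn2 hu2A hu2R hv2A hv2R
  have hX2c : G2.IsClique (X2 : Set V) := by
    intro p hp q hq hpq
    rcases hnear2 p hp q hq hpq with h | ⟨e1, e2⟩ | ⟨e1, e2⟩
    · exact l2 h
    · rw [e1, e2]; exact hnew2
    · rw [e1, e2]; exact hnew2.symm
  -- some edge of X2 is new at the first step
  obtain ⟨p, hp, q, hq, hpq, hpq1, hpq0⟩ : ∃ p ∈ X2, ∃ q ∈ X2, p ≠ q ∧ G1.Adj p q ∧
      ¬ G.Adj p q := by
    by_contra hall
    push Not at hall
    apply hn2
    rw [h1]
    refine k5_rule hX2 hu2 hv2 hnew2.ne ?_ hA hAc hd2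
    intro p hp q hq hpq
    rcases hnear2 p hp q hq hpq with h | h | h
    · exact Or.inl (hall p hp q hq hpq h)
    · exact Or.inr (Or.inl h)
    · exact Or.inr (Or.inr h)
  obtain ⟨⟨hpA, hpR⟩, ⟨hqA, hqR⟩⟩ := hout p q (l2 hpq1) hpq0
  obtain ⟨X1, hX1, hp1, hq1, hnear1, hd1⟩ := pure_edge hb (h1 ▸ hb1) hR hRc hd hv0 ha0
    hv0a0 (h1 ▸ hpq1) hpq0 hpA hpR hqA hqR
  have hX1c : G1.IsClique (X1 : Set V) := by
    intro p' hp' q' hq' hpq'
    rcases hnear1 p' hp' q' hq' hpq' with h | ⟨e1, e2⟩ | ⟨e1, e2⟩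
    · exact l1 h
    · rw [e1, e2]; exact hpq1
    · rw [e1, e2]; exact hpq1.symm
  have hv0R : v0 ∈ R := hb R hR hRc hd v0 hv0 ⟨a0, ha0, hv0a0⟩
  have hv01 : v0 ∈ X1 := hb1 X1 hX1 hX1c hd1 v0 hv0 ⟨a0, ha0, l1 hv0a0⟩
  have hv02 : v0 ∈ X2 := hb2 X2 hX2 hX2c hd2 v0 hv0 ⟨a0, ha0, l12 hv0a0⟩
  have hv0p : v0 ≠ p := fun h => hpR (h ▸ hv0R)
  have hv0q : v0 ≠ q := fun h => hqR (h ▸ hv0R)
  have hdU : Disjoint (X1 ∪ X2) A := Finset.disjoint_union_left.2 ⟨hd1, hd2⟩
  -- the union is a clique in G3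
  have key : ∀ z ∈ X1, z ∉ X2 → ∀ c ∈ X2, c ∉ X1 → G3.Adj z c := by
    intro z hz1 hz2 c hc2 hc1
    have hzc : z ≠ c := fun h => hz2 (h ▸ hc2)
    have hzv : z ≠ v0 := fun h => hz2 (h ▸ hv02)
    have hzp : z ≠ p := fun h => hz2 (h ▸ hp)
    have hzq : z ≠ q := fun h => hz2 (h ▸ hq)
    have hcv : c ≠ v0 := fun h => hc1 (h ▸ hv01)
    have hcp : c ≠ p := fun h => hc1 (h ▸ hp1)
    have hcq : c ≠ q := fun h => hc1 (h ▸ hq1)
    rw [h3]
    refine k5_rule (X := {z, c, v0, p, q}) (S := A) ?_ (by simp) (by simp) hzc ?_ hA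
      (hAc.mono l12) ?_
    · rw [Finset.card_insert_of_notMem, Finset.card_insert_of_notMem,
        Finset.card_insert_of_notMem, Finset.card_pair hpq]
      · simp [hv0p, hv0q]
      · simp [hcv, hcp, hcq]
      · simp [hzc, hzv, hzp, hzq]
    · intro a ha b hb' hab
      have hmem : ∀ w ∈ ({z, c, v0, p, q} : Finset V), w = z ∨ w = c ∨ (w ∈ X1 ∧ w ∈ X2) := by
        intro w hw
        simp only [Finset.mem_insert, Finset.mem_singleton] at hw
        rcases hw with rfl | rfl | rfl | rfl | rfl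
        · exact Or.inl rfl
        · exact Or.inr (Or.inl rfl)
        · exact Or.inr (Or.inr ⟨hv01, hv02⟩)
        · exact Or.inr (Or.inr ⟨hp1, hp⟩)
        · exact Or.inr (Or.inr ⟨hq1, hq⟩)
      have c1 : ∀ a ∈ X1, ∀ b ∈ X1, a ≠ b → Ext G2 z c a b :=
        fun a ha b hb hab => Or.inl (l2 (hX1c ha hb hab))
      have c2 : ∀ a ∈ X2, ∀ b ∈ X2, a ≠ b → Ext G2 z c a b :=
        fun a ha b hb hab => Or.inl (hX2c ha hb hab)
      rcases hmem a ha with rfl | rfl | ⟨ha1, ha2⟩ <;>
        rcases hmem b hb' with rfl | rfl | ⟨hb1', hb2'⟩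
      · exact absurd rfl hab
      · exact Or.inr (Or.inl ⟨rfl, rfl⟩)
      · exact c1 _ hz1 _ hb1' hab
      · exact Or.inr (Or.inr ⟨rfl, rfl⟩)
      · exact absurd rfl hab
      · exact c2 _ hc2 _ hb2' hab
      · exact c1 _ ha1 _ hz1 hab
      · exact c2 _ ha2 _ hc2 hab
      · exact c1 _ ha1 _ hb1' hab
    · refine Finset.disjoint_of_subset_left ?_ hdU
      intro w hw
      simp only [Finset.mem_insert, Finset.mem_singleton] at hw
      rcases hw with rfl | rfl | rfl | rfl | rfl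
      · exact Finset.mem_union_left _ hz1
      · exact Finset.mem_union_right _ hc2
      · exact Finset.mem_union_left _ hv01
      · exact Finset.mem_union_left _ hp1
      · exact Finset.mem_union_left _ hq1
  have hUc : G3.IsClique ((X1 ∪ X2 : Finset V) : Set V) := by
    intro a ha b hb' hab
    rw [Finset.mem_coe, Finset.mem_union] at ha hb'
    by_cases ha1 : a ∈ X1 <;> by_cases ha2 : a ∈ X2 <;> by_cases hb1' : b ∈ X1 <;>
      by_cases hb2' : b ∈ X2
    all_goals first
      | exact l3 (l2 (hX1c ha1 hb1' hab))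
      | exact l3 (hX2c ha2 hb2' hab)
      | exact key _ ha1 ha2 _ hb2' hb1'
      | exact (key _ hb1' hb2' _ ha2 ha1).symm
      | exact (ha.elim ha1 ha2).elim
      | exact (hb'.elim hb1' hb2').elim
  -- the union has at least six vertices
  have hex : ∃ c ∈ X2, c ∉ X1 := by
    by_contra hall
    push Not at hall
    exact hn2 (hX1c (hall u2 hu2) (hall v2 hv2) hnew2.ne)
  obtain ⟨c, hc2, hc1⟩ := hex
  have hcard : 6 ≤ (X1 ∪ X2).card := by
    have hsub : insert c X1 ⊆ X1 ∪ X2 := by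
      intro w hw
      rw [Finset.mem_insert] at hw
      rcases hw with rfl | hw
      · exact Finset.mem_union_right _ hc2
      · exact Finset.mem_union_left _ hw
    have := Finset.card_le_card hsub
    rw [Finset.card_insert_of_notMem hc1, hX1] at this
    exact this
  have hc : 5 ≤ ((X1 ∪ X2).erase v0).card := by
    have := Finset.pred_card_le_card_erase (s := X1 ∪ X2) (a := v0)
    omega
  obtain ⟨Y, hY, hYc⟩ := Finset.exists_subset_card_eq hc
  have hYX : Y ⊆ X1 ∪ X2 := hY.trans (Finset.erase_subset _ _)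
  have h1' := hb3 Y hYc (hUc.subset (by exact_mod_cast hYX))
    (Finset.disjoint_of_subset_left hYX hdU) v0 hv0 ⟨a0, ha0, l13 hv0a0⟩
  exact (Finset.mem_erase.1 (hY h1')).1 rfl

end Upper

section Upper2

variable {V : Type} [Fintype V] [DecidableEq V]

theorem phase_length {G₀ : SimpleGraph V} {T t1 t2 : ℕ}
    (hTmin : ∀ t < T, proc HH G₀ t ≠ proc HH G₀ (t + 1))
    {A R : Finset V} {v0 a0 : V} (hb : ∀ t, t1 ≤ t → t ≤ t2 → Blocked (proc HH G₀ t) A)
    (hA : 7 ≤ A.card) (hAc : (proc HH G₀ t1).IsClique (A : Set V)) (hR : R.card = 5)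
    (hRc : (proc HH G₀ t1).IsClique (R : Set V)) (hd : Disjoint R A) (hv0 : v0 ∉ A)
    (ha0 : a0 ∈ A) (hadj : (proc HH G₀ t1).Adj v0 a0) (ht2 : t2 ≤ T) :
    t2 ≤ t1 + 2 * ((A.card + 5) * Fintype.card V) + 2 := by
  classical
  let S : ℕ → Finset (V × V) := fun t =>
    ((A ∪ R) ×ˢ Finset.univ).filter (fun p => (proc HH G₀ t).Adj p.1 p.2)
  have hSmono : ∀ s t, s ≤ t → S s ⊆ S t := by
    intro s t hst p hp
    simp only [S, Finset.mem_filter] at hp ⊢
    exact ⟨hp.1, proc_mono _ _ hst hp.2⟩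
  have hcount : ∀ i, t1 + 2 * i + 1 ≤ t2 → i ≤ (S (t1 + 2 * i)).card := by
    intro i
    induction i with
    | zero => intro _; exact Nat.zero_le _
    | succ i ih =>
      intro hi
      have hm : ∀ s, t1 ≤ s → proc HH G₀ t1 ≤ proc HH G₀ s := fun s hs => proc_mono _ _ hs
      obtain ⟨x, hx, y, hxy, hnxy⟩ := two_steps (proc_succ HH G₀ (t1 + 2 * i))
        (proc_succ HH G₀ (t1 + 2 * i + 1)) (proc_succ HH G₀ (t1 + 2 * i + 2))
        (hb _ (by omega) (by omega)) (hb _ (by omega) (by omega)) (hb _ (by omega) (by omega))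
        (hb _ (by omega) (by omega)) hA (hAc.mono (hm _ (by omega))) hR
        (hRc.mono (hm _ (by omega))) hd hv0 ha0 (hm _ (by omega) hadj) (hTmin _ (by omega))
      have hlt : (S (t1 + 2 * i)).card < (S (t1 + 2 * (i + 1))).card := by
        apply Finset.card_lt_card
        rw [Finset.ssubset_iff_of_subset (hSmono _ _ (by omega))]
        refine ⟨(x, y), ?_, ?_⟩
        · simp only [S, Finset.mem_filter, Finset.mem_product, Finset.mem_univ, and_true]
          exact ⟨hx, hxy⟩
        · simp only [S, Finset.mem_filter, Finset.mem_product, Finset.mem_univ, and_true]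
          exact fun h => hnxy h.2
      have := ih (by omega)
      omega
  by_contra hlt
  push Not at hlt
  set K := (A.card + 5) * Fintype.card V with hK
  have h1 := hcount (K + 1) (by omega)
  have h2 : (S (t1 + 2 * (K + 1))).card ≤ K := by
    calc (S (t1 + 2 * (K + 1))).card ≤ ((A ∪ R) ×ˢ (Finset.univ : Finset V)).card :=
          Finset.card_filter_le _ _
      _ = (A ∪ R).card * Fintype.card V := by rw [Finset.card_product, Finset.card_univ]
      _ ≤ (A.card + 5) * Fintype.card V := by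
          apply Nat.mul_le_mul_right
          have := Finset.card_union_le A R
          omega
  omega

/-- A clique on `k` vertices and a disjoint `K_5`, both present at time `t`. -/
def State (G₀ : SimpleGraph V) (t k : ℕ) : Prop :=
  ∃ A R : Finset V, A.card = k ∧ R.card = 5 ∧ (proc HH G₀ t).IsClique (A : Set V) ∧
    (proc HH G₀ t).IsClique (R : Set V) ∧ Disjoint R A

theorem state_step {G₀ : SimpleGraph V} {T : ℕ} (hT : proc HH G₀ T = ⊤)
    (hTmin : ∀ t < T, proc HH G₀ t ≠ proc HH G₀ (t + 1)) {t1 k : ℕ} (hk : 7 ≤ k)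
    (hkn : k < Fintype.card V) (hs : State G₀ t1 k) :
    T ≤ t1 + 2 * ((k + 5) * Fintype.card V) + 4 ∨
      ∃ t', t' ≤ t1 + 2 * ((k + 5) * Fintype.card V) + 4 ∧ State G₀ t' (k + 1) := by
  obtain ⟨A, R, hAk, hR, hAc, hRc, hd⟩ := hs
  by_cases ht1 : t1 ≤ T
  swap
  · left; omega
  obtain ⟨a0, ha0, v0, hv0, hadj⟩ := exists_cross hT t1 (A := A)
    (Finset.card_pos.1 (by omega)) (by omega)
  set K := (k + 5) * Fintype.card V with hK
  by_cases hall : ∀ t, t1 ≤ t → t ≤ min T (t1 + 2 * K + 3) → Blocked (proc HH G₀ t) A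
  · left
    have := phase_length hTmin hall (by omega) hAc hR hRc hd hv0 ha0 hadj (min_le_left _ _)
    rw [hAk] at this
    rcases min_choice T (t1 + 2 * K + 3) with h | h <;> rw [h] at this <;> omega
  · right
    push Not at hall
    obtain ⟨t, ht, ht2, hnb⟩ := hall
    unfold Blocked at hnb
    push Not at hnb
    obtain ⟨X, hX, hXc, hXd, v, hv, ⟨a, ha, hva⟩, hvX⟩ := hnb
    have ht3 := ht2.trans (min_le_right _ _)
    refine ⟨t + 1, by omega, insert v A, X, ?_, hX, ?_, ?_, ?_⟩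
    · rw [Finset.card_insert_of_notMem hv, hAk]
    · rw [proc_succ]
      exact grow (by omega) (hAc.mono (proc_mono _ _ ht)) ha hv hva (by omega) hXc hXd hvX
    · exact hXc.mono (proc_mono _ _ (Nat.le_succ t))
    · rw [Finset.disjoint_insert_right]
      exact ⟨hvX, hXd⟩

theorem final_phase {G₀ : SimpleGraph V} {T : ℕ} (hT : proc HH G₀ T = ⊤)
    {t1 : ℕ} {A : Finset V} (hA : 11 ≤ A.card)
    (hAc : (proc HH G₀ t1).IsClique (A : Set V)) :
    proc HH G₀ (t1 + Fintype.card V) = ⊤ := by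
  have key : ∀ j, ∃ B : Finset V, (proc HH G₀ (t1 + j)).IsClique (B : Set V) ∧ 11 ≤ B.card ∧
      min (Fintype.card V) j ≤ B.card := by
    intro j
    induction j with
    | zero => exact ⟨A, hAc, hA, by simp⟩
    | succ j ih =>
      obtain ⟨B, hB, hB11, hBj⟩ := ih
      by_cases hBV : B.card < Fintype.card V
      · obtain ⟨a, ha, v, hv, hva⟩ := exists_cross hT (t1 + j) (A := B)
          (Finset.card_pos.1 (by omega)) hBV
        refine ⟨insert v B, ?_, ?_, ?_⟩
        · rw [← add_assoc, proc_succ]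
          exact grow_big hB11 hB ha hv hva
        · rw [Finset.card_insert_of_notMem hv]; omega
        · rw [Finset.card_insert_of_notMem hv]; omega
      · refine ⟨B, hB.mono (proc_mono _ _ (by omega)), hB11, ?_⟩
        have := Finset.card_le_univ B
        omega
  obtain ⟨B, hB, -, hBn⟩ := key (Fintype.card V)
  have hBu : B = Finset.univ := by
    rw [← Finset.card_eq_iff_eq_univ]
    have := Finset.card_le_univ B
    omega
  rw [hBu] at hB
  rw [eq_top_iff]
  intro p q hpq
  exact hB (by simp) (by simp) hpq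

theorem upper {G₀ : SimpleGraph V} (hp : Percolating HH G₀) :
    tau HH G₀ ≤ 121 * Fintype.card V + 18 := by
  set T := tau HH G₀ with hTdef
  have hT : proc HH G₀ T = ⊤ := hp
  have hTmin : ∀ t < T, proc HH G₀ t ≠ proc HH G₀ (t + 1) := by
    intro t ht h
    exact Nat.notMem_of_lt_sInf (show t < sInf {t | proc HH G₀ t = proc HH G₀ (t + 1)} from ht) h
  have hTle : ∀ s, proc HH G₀ s = ⊤ → T ≤ s := by
    intro s hs
    refine Nat.sInf_le ?_
    have h1 : proc HH G₀ (s + 1) = ⊤ := by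
      rw [eq_top_iff, ← hs]
      exact proc_mono _ _ (Nat.le_succ s)
    show proc HH G₀ s = proc HH G₀ (s + 1)
    rw [hs, h1]
  by_cases hT0 : T = 0
  · omega
  have h01 := hTmin 0 (by omega)
  obtain ⟨u, v, huv, hn⟩ : ∃ u v, (proc HH G₀ 1).Adj u v ∧ ¬ (proc HH G₀ 0).Adj u v := by
    by_contra hall
    push Not at hall
    exact h01 (le_antisymm (proc_mono _ _ (Nat.zero_le 1)) (fun u v h => hall u v h))
  rw [show (1 : ℕ) = 0 + 1 from rfl, proc_succ] at huv
  obtain ⟨hcard, Q, R, w, a, hQ, hR, hQc, hRc, hd, hwQ, hwR, haQ, hwa⟩ := start huv hn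
  have hs7 : State G₀ 2 7 := by
    refine ⟨insert w Q, R, ?_, hR, ?_, ?_, ?_⟩
    · rw [Finset.card_insert_of_notMem hwQ, hQ]
    · rw [show (2 : ℕ) = (0 + 1) + 1 from rfl, proc_succ, proc_succ]
      exact grow (by omega) hQc haQ hwQ hwa (by omega) hRc hd hwR
    · rw [← proc_succ] at hRc
      exact hRc.mono (proc_mono _ _ (by omega))
    · rw [Finset.disjoint_insert_right]
      exact ⟨hwR, hd⟩
  set n := Fintype.card V with hn'
  rcases state_step hT hTmin (by omega) (by omega) hs7 with h | ⟨t8, ht8, hs8⟩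
  · omega
  rcases state_step hT hTmin (by omega) (by omega) hs8 with h | ⟨t9, ht9, hs9⟩
  · omega
  rcases state_step hT hTmin (by omega) (by omega) hs9 with h | ⟨t10, ht10, hs10⟩
  · omega
  rcases state_step hT hTmin (by omega) (by omega) hs10 with h | ⟨t11, ht11, hs11⟩
  · omega
  obtain ⟨A, R', hA, -, hAc, -, -⟩ := hs11
  have := hTle _ (final_phase hT (by omega) hAc)
  omega

end Upper2

section Chain

variable {V : Type} [DecidableEq V]

/-- The `i`-th block of a chain. -/
def Ed (a b c : ℕ → V) (i : ℕ) : Finset V := {a i, b i, a (i + 1), b (i + 1), c (i + 1)}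

def Co (a b c : ℕ → V) (N : ℕ) (p q : V) : Prop := ∃ i < N, p ∈ Ed a b c i ∧ q ∈ Ed a b c i

structure IsChain' (a b c : ℕ → V) (Z : Finset V) (N : ℕ) : Prop where
  card5 : ∀ i < N, (Ed a b c i).card = 5
  disj : ∀ i < N, Disjoint (Ed a b c i) Z
  inter : ∀ i j, i < j → j < N → ∀ p q, p ≠ q → p ∈ Ed a b c i → p ∈ Ed a b c j →
    q ∈ Ed a b c i → q ∈ Ed a b c j → j = i + 1 ∧ (p = a j ∨ p = b j) ∧ (q = a j ∨ q = b j)
  tri : ∀ p q r, p ≠ q → p ≠ r → q ≠ r → Co a b c N p q → Co a b c N p r → Co a b c N q r →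
    ∃ i < N, p ∈ Ed a b c i ∧ q ∈ Ed a b c i ∧ r ∈ Ed a b c i

variable {a b c : ℕ → V} {Z : Finset V} {N : ℕ}

theorem mem_Ed {i : ℕ} {p : V} : p ∈ Ed a b c i ↔
    p = a i ∨ p = b i ∨ p = a (i + 1) ∨ p = b (i + 1) ∨ p = c (i + 1) := by
  simp [Ed]

theorem IsChain'.distinct (h : IsChain' a b c Z N) {i : ℕ} (hi : i < N) :
    a i ≠ b i ∧ a i ≠ a (i + 1) ∧ a i ≠ b (i + 1) ∧ a i ≠ c (i + 1) ∧
    b i ≠ a (i + 1) ∧ b i ≠ b (i + 1) ∧ b i ≠ c (i + 1) ∧
    a (i + 1) ≠ b (i + 1) ∧ a (i + 1) ≠ c (i + 1) ∧ b (i + 1) ≠ c (i + 1) := by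
  have hc := h.card5 i hi
  unfold Ed at hc
  have key : ∀ (x y z w v : V), ({x, y, z, w, v} : Finset V).card = 5 →
      x ≠ y ∧ x ≠ z ∧ x ≠ w ∧ x ≠ v ∧ y ≠ z ∧ y ≠ w ∧ y ≠ v ∧ z ≠ w ∧ z ≠ v ∧ w ≠ v := by
    intro x y z w v hcard
    have h4 : ∀ (x y z w : V), ({x, y, z, w} : Finset V).card ≤ 4 := fun x y z w =>
      Finset.card_le_four
    refine ⟨?_, ?_, ?_, ?_, ?_, ?_, ?_, ?_, ?_, ?_⟩ <;> rintro rfl
    · have := h4 x z w v
      simp only [Finset.insert_idem] at hcard
      omega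
    · have := h4 x y w v
      rw [show ({x, y, x, w, v} : Finset V) = {x, y, w, v} by ext t; simp; tauto] at hcard
      omega
    · have := h4 x y z v
      rw [show ({x, y, z, x, v} : Finset V) = {x, y, z, v} by ext t; simp; tauto] at hcard
      omega
    · have := h4 x y z w
      rw [show ({x, y, z, w, x} : Finset V) = {x, y, z, w} by ext t; simp; tauto] at hcard
      omega
    · have := h4 x y w v
      rw [show ({x, y, y, w, v} : Finset V) = {x, y, w, v} by ext t; simp] at hcard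
      omega
    · have := h4 x y z v
      rw [show ({x, y, z, y, v} : Finset V) = {x, y, z, v} by ext t; simp; tauto] at hcard
      omega
    · have := h4 x y z w
      rw [show ({x, y, z, w, y} : Finset V) = {x, y, z, w} by ext t; simp; tauto] at hcard
      omega
    · have := h4 x y z v
      rw [show ({x, y, z, z, v} : Finset V) = {x, y, z, v} by ext t; simp] at hcard
      omega
    · have := h4 x y z w
      rw [show ({x, y, z, w, z} : Finset V) = {x, y, z, w} by ext t; simp; tauto] at hcard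
      omega
    · have := h4 x y z w
      rw [show ({x, y, z, w, w} : Finset V) = {x, y, z, w} by ext t; simp] at hcard
      omega
  exact key _ _ _ _ _ hc

/-- Two different blocks do not share three vertices. -/
theorem IsChain'.no_three (h : IsChain' a b c Z N) {i j : ℕ} (hi : i < N) (hj : j < N)
    (hij : i ≠ j) {p q r : V} (hpq : p ≠ q) (hpr : p ≠ r) (hqr : q ≠ r)
    (hp : p ∈ Ed a b c i) (hp' : p ∈ Ed a b c j) (hq : q ∈ Ed a b c i) (hq' : q ∈ Ed a b c j)
    (hr : r ∈ Ed a b c i) (hr' : r ∈ Ed a b c j) : False := by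
  have key : ∀ x y : V, (p = x ∨ p = y) → (q = x ∨ q = y) → (r = x ∨ r = y) → False := by
    rintro x y (rfl | rfl) (rfl | rfl) (rfl | rfl)
    all_goals first
      | exact hpq rfl
      | exact hpr rfl
      | exact hqr rfl
  rcases lt_or_gt_of_ne hij with hlt | hlt
  · obtain ⟨-, h1, h2⟩ := h.inter i j hlt hj p q hpq hp hp' hq hq'
    obtain ⟨-, -, h3⟩ := h.inter i j hlt hj p r hpr hp hp' hr hr'
    exact key _ _ h1 h2 h3
  · obtain ⟨-, h1, h2⟩ := h.inter j i hlt hi p q hpq hp' hp hq' hq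
    obtain ⟨-, -, h3⟩ := h.inter j i hlt hi p r hpr hp' hp hr' hr
    exact key _ _ h1 h2 h3

/-- If `p,q,r` lie in block `i` and `x` co-occurs with each of them, then `x` is in block `i`. -/
theorem IsChain'.absorb (h : IsChain' a b c Z N) {i : ℕ} (hi : i < N) {p q r x : V}
    (hpq : p ≠ q) (hpr : p ≠ r) (hqr : q ≠ r) (hxp : x ≠ p) (hxq : x ≠ q) (hxr : x ≠ r)
    (hp : p ∈ Ed a b c i) (hq : q ∈ Ed a b c i) (hr : r ∈ Ed a b c i)
    (cp : Co a b c N x p) (cq : Co a b c N x q) (cr : Co a b c N x r) : x ∈ Ed a b c i := by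
  by_contra hx
  obtain ⟨j, hj, hxj, hpj, hqj⟩ := h.tri x p q hxp hxq hpq cp cq ⟨i, hi, hp, hq⟩
  obtain ⟨k, hk, hxk, hpk, hrk⟩ := h.tri x p r hxp hxr hpr cp cr ⟨i, hi, hp, hr⟩
  have hij : i ≠ j := by rintro rfl; exact hx hxj
  have hik : i ≠ k := by rintro rfl; exact hx hxk
  rcases lt_or_gt_of_ne hij with h1 | h1 <;> rcases lt_or_gt_of_ne hik with h2 | h2
  · obtain ⟨e1, f1, g1⟩ := h.inter i j h1 hj p q hpq hp hpj hq hqj
    obtain ⟨e2, f2, g2⟩ := h.inter i k h2 hk p r hpr hp hpk hr hrk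
    subst e1; subst e2
    rcases f1 with rfl | rfl <;> rcases g1 with rfl | rfl <;> rcases g2 with rfl | rfl
    all_goals first
      | exact hpq rfl
      | exact hpr rfl
      | exact hqr rfl
  · obtain ⟨e1, f1, g1⟩ := h.inter i j h1 hj p q hpq hp hpj hq hqj
    obtain ⟨e2, f2, g2⟩ := h.inter k i h2 hi p r hpr hpk hp hrk hr
    subst e1
    obtain ⟨d1, d2, d3, d4, d5, d6, d7, d8, d9, d10⟩ := h.distinct hi
    rcases f1 with rfl | rfl <;> rcases f2 with h' | h'
    · exact d2 h'.symm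
    · exact d5 h'.symm
    · exact d3 h'.symm
    · exact d6 h'.symm
  · obtain ⟨e1, f1, g1⟩ := h.inter j i h1 hi p q hpq hpj hp hqj hq
    obtain ⟨e2, f2, g2⟩ := h.inter i k h2 hk p r hpr hp hpk hr hrk
    subst e2
    obtain ⟨d1, d2, d3, d4, d5, d6, d7, d8, d9, d10⟩ := h.distinct hi
    rcases f2 with rfl | rfl <;> rcases f1 with h' | h'
    · exact d2 h'.symm
    · exact d5 h'.symm
    · exact d3 h'.symm
    · exact d6 h'.symm
  · obtain ⟨e1, f1, g1⟩ := h.inter j i h1 hi p q hpq hpj hp hqj hq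
    obtain ⟨e2, f2, g2⟩ := h.inter k i h2 hi p r hpr hpk hp hrk hr
    rcases f1 with rfl | rfl <;> rcases g1 with rfl | rfl <;> rcases g2 with rfl | rfl
    all_goals first
      | exact hpq rfl
      | exact hpr rfl
      | exact hqr rfl

theorem IsChain'.star (h : IsChain' a b c Z N) {u v : V} {X : Finset V} (hX : X.card = 5)
    (hnear : ∀ p ∈ X, ∀ q ∈ X, p ≠ q → Co a b c N p q ∨ (p = u ∧ q = v) ∨ (p = v ∧ q = u)) :
    ∃ i < N, X = Ed a b c i := by
  -- choose the exceptional pair inside `X`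
  obtain ⟨u', hu', v', hv', huv', hnear'⟩ : ∃ u' ∈ X, ∃ v' ∈ X, u' ≠ v' ∧
      ∀ p ∈ X, ∀ q ∈ X, p ≠ q → Co a b c N p q ∨ (p = u' ∧ q = v') ∨ (p = v' ∧ q = u') := by
    by_cases huX : u ∈ X ∧ v ∈ X ∧ u ≠ v
    · exact ⟨u, huX.1, v, huX.2.1, huX.2.2, hnear⟩
    · obtain ⟨x, y, hx, hy, hxy⟩ := Finset.one_lt_card_iff.1 (show 1 < X.card by omega)
      refine ⟨x, hx, y, hy, hxy, ?_⟩
      intro p hp q hq hpq
      left
      rcases hnear p hp q hq hpq with h' | ⟨rfl, rfl⟩ | ⟨rfl, rfl⟩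
      · exact h'
      · exact absurd ⟨hp, hq, hpq⟩ huX
      · exact absurd ⟨hq, hp, hpq.symm⟩ huX
  have hc3 : ((X.erase u').erase v').card = 3 := by
    rw [Finset.card_erase_of_mem, Finset.card_erase_of_mem hu', hX]
    exact Finset.mem_erase.2 ⟨huv'.symm, hv'⟩
  obtain ⟨p, q, r, hpq, hpr, hqr, hpqr⟩ := Finset.card_eq_three.1 hc3
  have hmem : ∀ x ∈ ({p, q, r} : Finset V), x ∈ X ∧ x ≠ u' ∧ x ≠ v' := by
    intro x hx
    rw [← hpqr, Finset.mem_erase, Finset.mem_erase] at hx
    exact ⟨hx.2.2, hx.2.1, hx.1⟩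
  obtain ⟨hpX, hpu, hpv⟩ := hmem p (by simp)
  obtain ⟨hqX, hqu, hqv⟩ := hmem q (by simp)
  obtain ⟨hrX, hru, hrv⟩ := hmem r (by simp)
  have co : ∀ x ∈ X, ∀ y ∈ X, x ≠ y → y ≠ u' → y ≠ v' → Co a b c N x y := by
    intro x hx y hy hxy h1 h2
    rcases hnear' x hx y hy hxy with h' | ⟨-, h'⟩ | ⟨-, h'⟩
    · exact h'
    · exact absurd h' h2
    · exact absurd h' h1
  obtain ⟨i, hi, hpi, hqi, hri⟩ := h.tri p q r hpq hpr hqr (co p hpX q hqX hpq hqu hqv)
    (co p hpX r hrX hpr hru hrv) (co q hqX r hrX hqr hru hrv)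
  have hall : ∀ x ∈ X, x ∈ Ed a b c i := by
    intro x hx
    by_cases h1 : x = p
    · rw [h1]; exact hpi
    by_cases h2 : x = q
    · rw [h2]; exact hqi
    by_cases h3 : x = r
    · rw [h3]; exact hri
    exact h.absorb hi hpq hpr hqr h1 h2 h3 hpi hqi hri (co x hx p hpX h1 hpu hpv)
      (co x hx q hqX h2 hqu hqv) (co x hx r hrX h3 hru hrv)
  refine ⟨i, hi, Finset.eq_of_subset_of_card_le hall ?_⟩
  rw [h.card5 i hi, hX]

end Chain

section Barrier

variable {V : Type} [Fintype V] [DecidableEq V]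

/-- The union of the blocks, without the links of index `> t`, plus a clique on `Z`. -/
def Bg (a b c : ℕ → V) (Z : Finset V) (N t : ℕ) : SimpleGraph V where
  Adj p q := p ≠ q ∧ ((p ∈ Z ∧ q ∈ Z) ∨ (Co a b c N p q ∧
    ∀ j, t < j → j ≤ N → ¬ ((p = a j ∧ q = b j) ∨ (p = b j ∧ q = a j))))
  symm := ⟨by
    rintro p q ⟨hpq, h⟩
    refine ⟨hpq.symm, ?_⟩
    rcases h with ⟨h1, h2⟩ | ⟨⟨i, hi, h1, h2⟩, h3⟩
    · exact Or.inl ⟨h2, h1⟩
    · refine Or.inr ⟨⟨i, hi, h2, h1⟩, ?_⟩
      intro j hj hjN h4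
      apply h3 j hj hjN
      tauto⟩
  loopless := ⟨fun p h => h.1 rfl⟩

variable {a b c : ℕ → V} {Z : Finset V} {N t : ℕ}

omit [Fintype V] in
theorem Bg_adj {p q : V} : (Bg a b c Z N t).Adj p q ↔ p ≠ q ∧ ((p ∈ Z ∧ q ∈ Z) ∨
    (Co a b c N p q ∧ ∀ j, t < j → j ≤ N → ¬ ((p = a j ∧ q = b j) ∨ (p = b j ∧ q = a j)))) :=
  Iff.rfl

omit [Fintype V] in
theorem Bg_side (h : IsChain' a b c Z N) {p q : V} (hpq : (Bg a b c Z N t).Adj p q) :
    p ∈ Z ↔ q ∈ Z := by
  rcases hpq with ⟨-, ⟨h1, h2⟩ | ⟨⟨i, hi, h1, h2⟩, -⟩⟩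
  · exact ⟨fun _ => h2, fun _ => h1⟩
  · have hd := h.disj i hi
    rw [Finset.disjoint_left] at hd
    exact ⟨fun h' => absurd h' (hd h1), fun h' => absurd h' (hd h2)⟩

omit [Fintype V] in
theorem Bg_co (h : IsChain' a b c Z N) {p q : V} (hp : p ∉ Z)
    (hpq : (Bg a b c Z N t).Adj p q) : Co a b c N p q := by
  rcases hpq with ⟨-, ⟨h1, h2⟩ | ⟨h1, -⟩⟩
  · exact absurd h1 hp
  · exact h1

omit [Fintype V] in
/-- a link determines its index -/
theorem link_unique (h : IsChain' a b c Z N) {i j : ℕ} (hij : i < j) (hj : j ≤ N) :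
    ¬ ((a i = a j ∧ b i = b j) ∨ (a i = b j ∧ b i = a j)) := by
  intro heq
  have hi : i < N := by omega
  -- the pair `a i, b i` lies in block `i` and in block `j - 1`
  obtain ⟨k, rfl⟩ : ∃ k, j = k + 1 := ⟨j - 1, by omega⟩
  have hk : k < N := by omega
  obtain ⟨d1, d2, d3, d4, d5, d6, d7, d8, d9, d10⟩ := h.distinct hi
  obtain ⟨e1, e2, e3, e4, e5, e6, e7, e8, e9, e10⟩ := h.distinct hk
  have ma : a i ∈ Ed a b c i := by rw [mem_Ed]; tauto
  have mb : b i ∈ Ed a b c i := by rw [mem_Ed]; tauto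
  have ma' : a i ∈ Ed a b c k := by rw [mem_Ed]; tauto
  have mb' : b i ∈ Ed a b c k := by rw [mem_Ed]; tauto
  by_cases hik : i = k
  · subst hik
    rcases heq with ⟨h1, h2⟩ | ⟨h1, h2⟩
    · exact d2 h1
    · exact d3 h1
  · obtain ⟨-, h1, h2⟩ := h.inter i k (by omega) hk _ _ d1 ma ma' mb mb'
    rcases heq with ⟨h3, h4⟩ | ⟨h3, h4⟩
    · rcases h1 with h1 | h1
      · exact e2 (h1.symm.trans h3)
      · exact e5 (h1.symm.trans h3)
    · rcases h1 with h1 | h1
      · exact e3 (h1.symm.trans h3)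
      · exact e6 (h1.symm.trans h3)

omit [Fintype V] in
theorem link_mem (h : IsChain' a b c Z N) {i : ℕ} (hi : i < N) :
    a (i + 1) ∈ Ed a b c i ∧ b (i + 1) ∈ Ed a b c i := by
  constructor <;> rw [mem_Ed] <;> tauto

omit [Fintype V] in
theorem link_not_adj (h : IsChain' a b c Z N) (ht : t < N) :
    ¬ (Bg a b c Z N t).Adj (a (t + 1)) (b (t + 1)) := by
  rintro ⟨-, ⟨h1, -⟩ | ⟨-, h3⟩⟩
  · exact (Finset.disjoint_left.1 (h.disj t ht)) (link_mem h ht).1 h1
  · exact h3 (t + 1) (by omega) (by omega) (Or.inl ⟨rfl, rfl⟩)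

omit [Fintype V] in
theorem link_adj (h : IsChain' a b c Z N) (ht : t < N) :
    (Bg a b c Z N (t + 1)).Adj (a (t + 1)) (b (t + 1)) := by
  obtain ⟨d1, d2, d3, d4, d5, d6, d7, d8, d9, d10⟩ := h.distinct ht
  refine ⟨d8, Or.inr ⟨⟨t, ht, (link_mem h ht).1, (link_mem h ht).2⟩, ?_⟩⟩
  intro j hj hjN hlink
  apply link_unique h (show t + 1 < j by omega) hjN
  tauto

omit [Fintype V] in
theorem Bg_mono : Bg a b c Z N t ≤ Bg a b c Z N (t + 1) := by
  rintro p q ⟨hpq, h | ⟨h1, h2⟩⟩
  · exact ⟨hpq, Or.inl h⟩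
  · exact ⟨hpq, Or.inr ⟨h1, fun j hj hjN => h2 j (by omega) hjN⟩⟩

theorem next_Bg (h : IsChain' a b c Z N) (hZ : Z.card = 7) (ht : t < N) :
    next HH (Bg a b c Z N t) = Bg a b c Z N (t + 1) := by
  set G := Bg a b c Z N t with hG
  have hZc : G.IsClique (Z : Set V) := by
    intro p hp q hq hpq
    exact ⟨hpq, Or.inl ⟨hp, hq⟩⟩
  apply le_antisymm
  · intro u v huv
    by_cases hn : G.Adj u v
    · exact Bg_mono hn
    have huv' : u ≠ v := huv.ne
    obtain ⟨⟨z, hz1, hz2⟩, hX⟩ := elim_new huv hn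
    have hside : u ∈ Z ↔ v ∈ Z := (Bg_side h hz1).trans (Bg_side h hz2).symm
    have huZ : u ∉ Z := by
      intro huZ
      exact hn ⟨huv', Or.inl ⟨huZ, hside.1 huZ⟩⟩
    have hvZ : v ∉ Z := fun h' => huZ (hside.2 h')
    -- a near-clique touching `u` or `v` avoids `Z`
    have hout : ∀ X : Finset V, (u ∈ X ∨ v ∈ X) → Near G u v X → ∀ p ∈ X, p ∉ Z := by
      intro X hX hnear p hp
      rcases hX with hX | hX
      · by_cases hpu : p = u
        · rw [hpu]; exact huZ
        · rcases hnear p hp u hX hpu with h' | ⟨h', -⟩ | ⟨h', -⟩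
          · rw [Bg_side h h']; exact huZ
          · rw [h']; exact huZ
          · rw [h']; exact hvZ
      · by_cases hpv : p = v
        · rw [hpv]; exact hvZ
        · rcases hnear p hp v hX hpv with h' | ⟨h', -⟩ | ⟨h', -⟩
          · rw [Bg_side h h']; exact hvZ
          · rw [h']; exact huZ
          · rw [h']; exact hvZ
    have hco : ∀ X : Finset V, (u ∈ X ∨ v ∈ X) → Near G u v X →
        ∀ p ∈ X, ∀ q ∈ X, p ≠ q → Co a b c N p q ∨ (p = u ∧ q = v) ∨ (p = v ∧ q = u) := by
      intro X hX hnear p hp q hq hpq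
      rcases hnear p hp q hq hpq with h' | h' | h'
      · exact Or.inl (Bg_co h (hout X hX hnear p hp) h')
      · exact Or.inr (Or.inl h')
      · exact Or.inr (Or.inr h')
    rcases hX with ⟨X, hX5, huX, hvX, hnear⟩ | ⟨X, hX6, huX, hnear⟩
    · obtain ⟨i, hi, hXi⟩ := h.star hX5 (hco X (Or.inl huX) hnear)
      subst hXi
      -- the missing pair is a link
      obtain ⟨j, hj, hjN, hlink⟩ : ∃ j, t < j ∧ j ≤ N ∧
          ((u = a j ∧ v = b j) ∨ (u = b j ∧ v = a j)) := by
        by_contra hno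
        push Not at hno
        apply hn
        refine ⟨huv', Or.inr ⟨⟨i, hi, huX, hvX⟩, ?_⟩⟩
        intro j hj hjN hl
        rcases hl with ⟨h1, h2⟩ | ⟨h1, h2⟩
        · exact (hno j hj hjN).1 h1 h2
        · exact (hno j hj hjN).2 h1 h2
      -- identify `j`
      have hji : j = i + 1 := by
        obtain ⟨k, rfl⟩ : ∃ k, j = k + 1 := ⟨j - 1, by omega⟩
        have hk : k < N := by omega
        obtain ⟨m1, m2⟩ := link_mem h hk
        have huk : u ∈ Ed a b c k := by
          rcases hlink with ⟨h1, h2⟩ | ⟨h1, h2⟩ <;> rw [h1] <;> assumption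
        have hvk : v ∈ Ed a b c k := by
          rcases hlink with ⟨h1, h2⟩ | ⟨h1, h2⟩ <;> rw [h2] <;> assumption
        by_contra hne
        have hik : i ≠ k := by omega
        rcases lt_or_gt_of_ne hik with hlt | hlt
        · -- the pair would be the link `k`, but also the link `k+1`
          obtain ⟨-, f1, f2⟩ := h.inter i k hlt hk u v huv' huX huk hvX hvk
          obtain ⟨d1, d2, d3, d4, d5, d6, d7, d8, d9, d10⟩ := h.distinct hk
          rcases hlink with ⟨h1, h2⟩ | ⟨h1, h2⟩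
          · rcases f1 with f1 | f1
            · exact d2 (f1.symm.trans h1)
            · exact d5 (f1.symm.trans h1)
          · rcases f1 with f1 | f1
            · exact d3 (f1.symm.trans h1)
            · exact d6 (f1.symm.trans h1)
        · -- `i = k + 1`; then link `i + 1` is also missing in block `i`
          obtain ⟨e1, f1, f2⟩ := h.inter k i hlt hi u v huv' huk huX hvk hvX
          subst e1
          obtain ⟨d1, d2, d3, d4, d5, d6, d7, d8, d9, d10⟩ := h.distinct hi
          obtain ⟨m1', m2'⟩ := link_mem h hi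
          rcases hnear _ m1' _ m2' d8 with h' | ⟨h1, h2⟩ | ⟨h1, h2⟩
          · rcases h' with ⟨-, ⟨h3, -⟩ | ⟨-, h3⟩⟩
            · exact (Finset.disjoint_left.1 (h.disj _ hi)) m1' h3
            · exact h3 (k + 1 + 1) (by omega) (by omega) (Or.inl ⟨rfl, rfl⟩)
          · rcases f1 with f1 | f1
            · exact d2 (f1.symm.trans h1.symm)
            · exact d5 (f1.symm.trans h1.symm)
          · rcases f2 with f2 | f2
            · exact d2 (f2.symm.trans h1.symm)
            · exact d5 (f2.symm.trans h1.symm)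
      subst hji
      -- the link `i` is present, so `i ≤ t`
      have hit : i ≤ t := by
        by_contra hlt
        push Not at hlt
        obtain ⟨d1, d2, d3, d4, d5, d6, d7, d8, d9, d10⟩ := h.distinct hi
        have ma : a i ∈ Ed a b c i := by rw [mem_Ed]; tauto
        have mb : b i ∈ Ed a b c i := by rw [mem_Ed]; tauto
        rcases hnear _ ma _ mb d1 with h' | ⟨h1, h2⟩ | ⟨h1, h2⟩
        · rcases h' with ⟨-, ⟨h3, -⟩ | ⟨-, h3⟩⟩
          · exact (Finset.disjoint_left.1 (h.disj _ hi)) ma h3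
          · exact h3 i hlt (by omega) (Or.inl ⟨rfl, rfl⟩)
        · rcases hlink with ⟨l1, l2⟩ | ⟨l1, l2⟩
          · exact d2 (h1.trans l1)
          · exact d3 (h1.trans l1)
        · rcases hlink with ⟨l1, l2⟩ | ⟨l1, l2⟩
          · exact d5 (h2.trans l1)
          · exact d6 (h2.trans l1)
      have hti : i = t := by omega
      subst hti
      rcases hlink with ⟨h1, h2⟩ | ⟨h1, h2⟩
      · rw [h1, h2]; exact link_adj h hi
      · rw [h1, h2]; exact (link_adj h hi).symm
    · exfalso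
      have hcoX := hco X huX hnear
      -- two 5-subsets sharing 4 vertices
      obtain ⟨x, y, hx, hy, hxy⟩ := Finset.one_lt_card_iff.1 (show 1 < X.card by omega)
      have hsub : ∀ w, w ∈ X → ∃ i < N, X.erase w = Ed a b c i := by
        intro w hw
        apply h.star (u := u) (v := v)
        · rw [Finset.card_erase_of_mem hw, hX6]
        · intro p hp q hq hpq
          exact hcoX p (Finset.mem_of_mem_erase hp) q (Finset.mem_of_mem_erase hq) hpq
      obtain ⟨i, hi, hXi⟩ := hsub x hx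
      obtain ⟨j, hj, hXj⟩ := hsub y hy
      have hij : i ≠ j := by
        rintro rfl
        have hxj : x ∈ X.erase y := Finset.mem_erase.2 ⟨hxy, hx⟩
        rw [hXj, ← hXi] at hxj
        exact (Finset.mem_erase.1 hxj).1 rfl
      have hc4 : 3 ≤ ((X.erase x).erase y).card := by
        rw [Finset.card_erase_of_mem, Finset.card_erase_of_mem hx, hX6]
        · omega
        · exact Finset.mem_erase.2 ⟨hxy.symm, hy⟩
      obtain ⟨Y, hY, hY3⟩ := Finset.exists_subset_card_eq hc4
      obtain ⟨p, q, r, hpq, hpr, hqr, hpqr⟩ := Finset.card_eq_three.1 hY3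
      have hmem : ∀ w ∈ ({p, q, r} : Finset V), w ∈ Ed a b c i ∧ w ∈ Ed a b c j := by
        intro w hw
        rw [← hpqr] at hw
        have h1 := hY hw
        rw [Finset.mem_erase, Finset.mem_erase] at h1
        constructor
        · rw [← hXi]; exact Finset.mem_erase.2 ⟨h1.2.1, h1.2.2⟩
        · rw [← hXj]; exact Finset.mem_erase.2 ⟨h1.1, h1.2.2⟩
      obtain ⟨p1, p2⟩ := hmem p (by simp)
      obtain ⟨q1, q2⟩ := hmem q (by simp)
      obtain ⟨r1, r2⟩ := hmem r (by simp)
      exact h.no_three hi hj hij hpq hpr hqr p1 p2 q1 q2 r1 r2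
  · intro u v huv
    by_cases hn : G.Adj u v
    · exact le_next _ _ hn
    -- the only new edge is the link `t + 1`
    have hlink : (u = a (t + 1) ∧ v = b (t + 1)) ∨ (u = b (t + 1) ∧ v = a (t + 1)) := by
      by_contra hno
      apply hn
      rcases huv with ⟨h0, h1 | ⟨h1, h2⟩⟩
      · exact ⟨h0, Or.inl h1⟩
      · refine ⟨h0, Or.inr ⟨h1, ?_⟩⟩
        intro j hj hjN
        by_cases hjt : j = t + 1
        · rw [hjt]; exact hno
        · exact h2 j (by omega) hjN
    have hmain : (next HH G).Adj (a (t + 1)) (b (t + 1)) := by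
      obtain ⟨d1, d2, d3, d4, d5, d6, d7, d8, d9, d10⟩ := h.distinct ht
      obtain ⟨m1, m2⟩ := link_mem h ht
      refine k5_rule (h.card5 t ht) m1 m2 d8 ?_ (by omega : 7 ≤ Z.card) hZc (h.disj t ht)
      intro p hp q hq hpq
      by_cases hl : (p = a (t + 1) ∧ q = b (t + 1)) ∨ (p = b (t + 1) ∧ q = a (t + 1))
      · exact Or.inr hl
      left
      refine ⟨hpq, Or.inr ⟨⟨t, ht, hp, hq⟩, ?_⟩⟩
      intro j hj hjN hjl
      have hj1 : j ≠ t + 1 := by
        rintro rfl
        exact hl hjl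
      obtain ⟨k, rfl⟩ : ∃ k, j = k + 1 := ⟨j - 1, by omega⟩
      have hk : k < N := by omega
      obtain ⟨m1', m2'⟩ := link_mem h hk
      have hpk : p ∈ Ed a b c k := by
        rcases hjl with ⟨h1, h2⟩ | ⟨h1, h2⟩ <;> rw [h1] <;> assumption
      have hqk : q ∈ Ed a b c k := by
        rcases hjl with ⟨h1, h2⟩ | ⟨h1, h2⟩ <;> rw [h2] <;> assumption
      obtain ⟨e1, f1, f2⟩ := h.inter t k (by omega) hk p q hpq hp hpk hq hqk
      obtain ⟨g1, g2, g3, g4, g5, g6, g7, g8, g9, g10⟩ := h.distinct hk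
      rcases hjl with ⟨h1, h2⟩ | ⟨h1, h2⟩
      · rcases f1 with f1 | f1
        · exact g2 (f1.symm.trans h1)
        · exact g5 (f1.symm.trans h1)
      · rcases f1 with f1 | f1
        · exact g3 (f1.symm.trans h1)
        · exact g6 (f1.symm.trans h1)
    rcases hlink with ⟨h1, h2⟩ | ⟨h1, h2⟩
    · rw [h1, h2]; exact hmain
    · rw [h1, h2]; exact hmain.symm

theorem proc_Bg (h : IsChain' a b c Z N) (hZ : Z.card = 7) :
    ∀ t, t ≤ N → proc HH (Bg a b c Z N 0) t = Bg a b c Z N t := by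
  intro t
  induction t with
  | zero => intro _; rfl
  | succ t ih =>
    intro ht
    rw [proc_succ, ih (by omega), next_Bg h hZ (by omega)]

end Barrier

section Greedy

variable {V : Type} [DecidableEq V]

/-- number of blocks of index `< N` containing `x` -/
def dg (a b c : ℕ → V) (N : ℕ) (x : V) : ℕ :=
  ((Finset.range N).filter (fun i => x ∈ Ed a b c i)).card

/-- vertices sharing a block of index `< N` with `x` -/
def nb (a b c : ℕ → V) (N : ℕ) (x : V) : Finset V :=
  ((Finset.range N).filter (fun i => x ∈ Ed a b c i)).biUnion (Ed a b c)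

variable {a b c : ℕ → V} {Z : Finset V} {N : ℕ}

theorem mem_nb {x y : V} : y ∈ nb a b c N x ↔ Co a b c N x y := by
  simp only [nb, Finset.mem_biUnion, Finset.mem_filter, Finset.mem_range, Co]
  constructor
  · rintro ⟨i, ⟨h1, h2⟩, h3⟩
    exact ⟨i, h1, h2, h3⟩
  · rintro ⟨i, h1, h2, h3⟩
    exact ⟨i, ⟨h1, h2⟩, h3⟩

/-- vertices at distance at most two from `x` -/
def nb2 (a b c : ℕ → V) (N : ℕ) (x : V) : Finset V := (nb a b c N x).biUnion (nb a b c N)

theorem mem_nb2 {x y : V} : y ∈ nb2 a b c N x ↔ ∃ z, Co a b c N x z ∧ Co a b c N z y := by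
  simp only [nb2, Finset.mem_biUnion, mem_nb]

theorem Co.symm' {x y : V} (h : Co a b c N x y) : Co a b c N y x := by
  obtain ⟨i, h1, h2, h3⟩ := h
  exact ⟨i, h1, h3, h2⟩

theorem nb2_symm {x y : V} (h : y ∈ nb2 a b c N x) : x ∈ nb2 a b c N y := by
  rw [mem_nb2] at h ⊢
  obtain ⟨z, h1, h2⟩ := h
  exact ⟨z, h2.symm', h1.symm'⟩

theorem Ed_card_le (i : ℕ) : (Ed a b c i).card ≤ 5 := Finset.card_le_five

theorem nb_card {m : ℕ} (hd : ∀ x, dg a b c N x ≤ m) (x : V) : (nb a b c N x).card ≤ m * 5 := by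
  refine (Finset.card_biUnion_le_card_mul _ _ 5 (fun i _ => Ed_card_le i)).trans ?_
  exact Nat.mul_le_mul_right _ (hd x)

theorem nb2_card {m : ℕ} (hd : ∀ x, dg a b c N x ≤ m) (x : V) :
    (nb2 a b c N x).card ≤ 25 * m ^ 2 := by
  refine (Finset.card_biUnion_le_card_mul _ _ (m * 5) (fun i _ => nb_card hd i)).trans ?_
  calc (nb a b c N x).card * (m * 5) ≤ (m * 5) * (m * 5) :=
        Nat.mul_le_mul_right _ (nb_card hd x)
    _ = 25 * m ^ 2 := by ring

theorem dg_sum (S : Finset V) : ∑ x ∈ S, dg a b c N x ≤ 5 * N := by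
  have h1 : ∀ x, dg a b c N x = ∑ i ∈ Finset.range N, if x ∈ Ed a b c i then 1 else 0 := by
    intro x
    rw [dg, Finset.card_filter]
  simp only [h1]
  rw [Finset.sum_comm]
  calc ∑ i ∈ Finset.range N, ∑ x ∈ S, (if x ∈ Ed a b c i then 1 else 0)
      ≤ ∑ i ∈ Finset.range N, 5 := by
        apply Finset.sum_le_sum
        intro i _
        rw [← Finset.card_filter]
        refine le_trans (Finset.card_le_card (t := Ed a b c i) ?_) (Ed_card_le i)
        intro x hx
        exact (Finset.mem_filter.1 hx).2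
    _ = 5 * N := by simp [mul_comm]

theorem exists_pick [Fintype V] {m : ℕ} (F : Finset V) (hF : F.card ≤ 11 + 100 * m ^ 2)
    (hN : 5 * N < (m - 1) * (Fintype.card V - (11 + 100 * m ^ 2))) :
    ∃ x, x ∉ F ∧ dg a b c N x + 2 ≤ m := by
  by_contra hno
  push Not at hno
  have h1 : (m - 1) * (Finset.univ \ F).card ≤ 5 * N := by
    refine le_trans ?_ (dg_sum (a := a) (b := b) (c := c) (Finset.univ \ F))
    rw [mul_comm, ← smul_eq_mul]
    apply Finset.card_nsmul_le_sum
    intro x hx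
    have := hno x (Finset.mem_sdiff.1 hx).2
    omega
  have h2 : Fintype.card V - (11 + 100 * m ^ 2) ≤ (Finset.univ \ F).card := by
    rw [Finset.card_sdiff_of_subset (Finset.subset_univ F), Finset.card_univ]
    omega
  have h3 := Nat.mul_le_mul_left (m - 1) h2
  omega

theorem IsChain'.congr {a' b' c' : ℕ → V} (h : IsChain' a b c Z N)
    (he : ∀ i < N, Ed a' b' c' i = Ed a b c i) (ha : ∀ i < N, a' i = a i)
    (hb : ∀ i < N, b' i = b i) : IsChain' a' b' c' Z N := by
  have hco : ∀ p q, Co a' b' c' N p q → Co a b c N p q := by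
    rintro p q ⟨i, hi, h1, h2⟩
    rw [he i hi] at h1 h2
    exact ⟨i, hi, h1, h2⟩
  refine ⟨?_, ?_, ?_, ?_⟩
  · intro i hi
    rw [he i hi]
    exact h.card5 i hi
  · intro i hi
    rw [he i hi]
    exact h.disj i hi
  · intro i j hij hj p q hpq h1 h2 h3 h4
    rw [he i (by omega)] at h1 h3
    rw [he j hj] at h2 h4
    rw [ha j hj, hb j hj]
    exact h.inter i j hij hj p q hpq h1 h2 h3 h4
  · intro p q r hpq hpr hqr h1 h2 h3
    obtain ⟨i, hi, k1, k2, k3⟩ := h.tri p q r hpq hpr hqr (hco _ _ h1) (hco _ _ h2) (hco _ _ h3)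
    refine ⟨i, hi, ?_⟩
    rw [he i hi]
    exact ⟨k1, k2, k3⟩

/-- Adding one block. -/
theorem IsChain'.extend (h : IsChain' a b c Z N) (h5 : (Ed a b c N).card = 5)
    (hd : Disjoint (Ed a b c N) Z)
    (hfar : ∀ p ∈ Ed a b c N, ∀ q ∈ Ed a b c N, p ≠ q →
      ¬ ((p = a N ∨ p = b N) ∧ (q = a N ∨ q = b N)) → q ∉ nb2 a b c N p) :
    IsChain' a b c Z (N + 1) := by
  have hfar1 : ∀ p ∈ Ed a b c N, ∀ q ∈ Ed a b c N, p ≠ q →
      Co a b c N p q → (p = a N ∨ p = b N) ∧ (q = a N ∨ q = b N) := by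
    intro p hp q hq hpq hco
    by_contra hno
    apply hfar p hp q hq hpq hno
    rw [mem_nb2]
    obtain ⟨i, hi, h1, h2⟩ := hco
    exact ⟨p, ⟨i, hi, h1, h1⟩, ⟨i, hi, h1, h2⟩⟩
  have hcoN : ∀ p q, Co a b c (N + 1) p q →
      Co a b c N p q ∨ (p ∈ Ed a b c N ∧ q ∈ Ed a b c N) := by
    rintro p q ⟨i, hi, h1, h2⟩
    rcases Nat.lt_succ_iff_lt_or_eq.1 hi with hlt | rfl
    · exact Or.inl ⟨i, hlt, h1, h2⟩
    · exact Or.inr ⟨h1, h2⟩
  have key : ∀ p q r, p ≠ q → p ≠ r → q ≠ r → p ∈ Ed a b c N → q ∈ Ed a b c N →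
      Co a b c (N + 1) p r → Co a b c (N + 1) q r →
      ∃ i < N + 1, p ∈ Ed a b c i ∧ q ∈ Ed a b c i ∧ r ∈ Ed a b c i := by
    intro p q r hpq hpr hqr hp hq h2 h3
    by_cases hr : r ∈ Ed a b c N
    · exact ⟨N, by omega, hp, hq, hr⟩
    have h2' : Co a b c N p r := (hcoN _ _ h2).resolve_right (fun h' => hr h'.2)
    have h3' : Co a b c N q r := (hcoN _ _ h3).resolve_right (fun h' => hr h'.2)
    have hl : (p = a N ∨ p = b N) ∧ (q = a N ∨ q = b N) := by
      by_contra hno
      apply hfar p hp q hq hpq hno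
      rw [mem_nb2]
      exact ⟨r, h2', h3'.symm'⟩
    have hN0 : 0 < N := by
      obtain ⟨i, hi, -, -⟩ := h2'
      omega
    obtain ⟨k, rfl⟩ : ∃ k, N = k + 1 := ⟨N - 1, by omega⟩
    have hpk : p ∈ Ed a b c k := by rw [mem_Ed]; tauto
    have hqk : q ∈ Ed a b c k := by rw [mem_Ed]; tauto
    obtain ⟨i, hi, k1, k2, k3⟩ := h.tri p q r hpq hpr hqr ⟨k, by omega, hpk, hqk⟩ h2' h3'
    exact ⟨i, by omega, k1, k2, k3⟩
  refine ⟨?_, ?_, ?_, ?_⟩
  · intro i hi
    rcases Nat.lt_succ_iff_lt_or_eq.1 hi with hlt | rfl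
    · exact h.card5 i hlt
    · exact h5
  · intro i hi
    rcases Nat.lt_succ_iff_lt_or_eq.1 hi with hlt | rfl
    · exact h.disj i hlt
    · exact hd
  · intro i j hij hj p q hpq h1 h2 h3 h4
    rcases Nat.lt_succ_iff_lt_or_eq.1 hj with hlt | rfl
    · exact h.inter i j hij hlt p q hpq h1 h2 h3 h4
    · have hl := hfar1 p h2 q h4 hpq ⟨i, hij, h1, h3⟩
      refine ⟨?_, hl.1, hl.2⟩
      by_contra hne
      obtain ⟨k, rfl⟩ : ∃ k, j = k + 1 := ⟨j - 1, by omega⟩
      have hpk : p ∈ Ed a b c k := by rw [mem_Ed]; tauto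
      have hqk : q ∈ Ed a b c k := by rw [mem_Ed]; tauto
      obtain ⟨-, g1, g2⟩ := h.inter i k (by omega) (by omega) p q hpq h1 hpk h3 hqk
      obtain ⟨d1, d2, d3, d4, d5, d6, d7, d8, d9, d10⟩ := h.distinct (show k < k + 1 by omega)
      rcases hl.1 with hl1 | hl1 <;> rcases g1 with g1 | g1
      · exact d2 (g1.symm.trans hl1)
      · exact d5 (g1.symm.trans hl1)
      · exact d3 (g1.symm.trans hl1)
      · exact d6 (g1.symm.trans hl1)
  · intro p q r hpq hpr hqr h1 h2 h3
    rcases hcoN _ _ h1 with h1' | ⟨hp, hq⟩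
    · rcases hcoN _ _ h2 with h2' | ⟨hp, hr⟩
      · rcases hcoN _ _ h3 with h3' | ⟨hq, hr⟩
        · obtain ⟨i, hi, k⟩ := h.tri p q r hpq hpr hqr h1' h2' h3'
          exact ⟨i, by omega, k⟩
        · obtain ⟨i, hi, k1, k2, k3⟩ := key q r p hqr hpq.symm hpr.symm hq hr h1.symm' h2.symm'
          exact ⟨i, hi, k3, k1, k2⟩
      · obtain ⟨i, hi, k1, k2, k3⟩ := key p r q hpr hpq hqr.symm hp hr h1 h3.symm'
        exact ⟨i, hi, k1, k3, k2⟩
    · exact key p q r hpq hpr hqr hp hq h2 h3

theorem exists_chain [Fintype V] (hZ : Z.card = 7) {m : ℕ} :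
    ∀ N, 5 * N < (m - 1) * (Fintype.card V - (11 + 100 * m ^ 2)) →
    ∃ a b c : ℕ → V, IsChain' a b c Z N ∧ a N ≠ b N ∧ a N ∉ Z ∧ b N ∉ Z ∧
      (∀ x, dg a b c N x ≤ m) ∧ dg a b c N (a N) + 1 ≤ m ∧ dg a b c N (b N) + 1 ≤ m := by
  intro N
  induction N with
  | zero =>
    intro hN
    have hm : 0 < m - 1 := by
      by_contra h0
      have : m - 1 = 0 := by omega
      rw [this] at hN
      omega
    have hn : 0 < Fintype.card V - (11 + 100 * m ^ 2) := by
      by_contra h0
      have : Fintype.card V - (11 + 100 * m ^ 2) = 0 := by omega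
      rw [this] at hN
      omega
    have hc : 1 < (Finset.univ \ Z).card := by
      rw [Finset.card_sdiff_of_subset (Finset.subset_univ Z), Finset.card_univ]
      omega
    obtain ⟨x, y, hx, hy, hxy⟩ := Finset.one_lt_card_iff.1 hc
    refine ⟨fun _ => x, fun _ => y, fun _ => x, ⟨?_, ?_, ?_, ?_⟩, hxy, (Finset.mem_sdiff.1 hx).2,
      (Finset.mem_sdiff.1 hy).2, ?_, ?_, ?_⟩
    · intro i hi; omega
    · intro i hi; omega
    · intro i j hij hj; omega
    · rintro p q r - - - ⟨i, hi, -⟩; omega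
    · intro z
      simp [dg]
    · simp only [dg, Finset.range_zero, Finset.filter_empty, Finset.card_empty]
      omega
    · simp only [dg, Finset.range_zero, Finset.filter_empty, Finset.card_empty]
      omega
  | succ N ih =>
    intro hN
    have hN' : 5 * N < (m - 1) * (Fintype.card V - (11 + 100 * m ^ 2)) := by omega
    obtain ⟨a, b, c, h, hab, haZ, hbZ, hdeg, hda, hdb⟩ := ih hN'
    set F0 : Finset V := Z ∪ insert (a N) (nb2 a b c N (a N)) ∪ insert (b N) (nb2 a b c N (b N))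
      with hF0
    have hB : ∀ x, (insert x (nb2 a b c N x)).card ≤ 25 * m ^ 2 + 1 := fun x =>
      (Finset.card_insert_le _ _).trans (Nat.add_le_add_right (nb2_card hdeg x) 1)
    have hF0c : F0.card ≤ 9 + 50 * m ^ 2 := by
      have h1 := Finset.card_union_le (Z ∪ insert (a N) (nb2 a b c N (a N)))
        (insert (b N) (nb2 a b c N (b N)))
      have h2 := Finset.card_union_le Z (insert (a N) (nb2 a b c N (a N)))
      have h3 := hB (a N)
      have h4 := hB (b N)
      rw [hF0]
      omega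
    obtain ⟨x, hxF, hxd⟩ := exists_pick (a := a) (b := b) (c := c) (N := N) (m := m) F0
      (by omega) hN'
    set F1 : Finset V := F0 ∪ insert x (nb2 a b c N x) with hF1
    have hF1c : F1.card ≤ 10 + 75 * m ^ 2 := by
      have h1 := Finset.card_union_le F0 (insert x (nb2 a b c N x))
      have h3 := hB x
      rw [hF1]
      omega
    obtain ⟨y, hyF, hyd⟩ := exists_pick (a := a) (b := b) (c := c) (N := N) (m := m) F1
      (by omega) hN'
    set F2 : Finset V := F1 ∪ insert y (nb2 a b c N y) with hF2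
    have hF2c : F2.card ≤ 11 + 100 * m ^ 2 := by
      have h1 := Finset.card_union_le F1 (insert y (nb2 a b c N y))
      have h3 := hB y
      rw [hF2]
      omega
    obtain ⟨z, hzF, hzd⟩ := exists_pick (a := a) (b := b) (c := c) (N := N) (m := m) F2
      hF2c hN'
    have e0 : ∀ w, w ∉ F0 → w ∉ Z ∧ w ≠ a N ∧ w ∉ nb2 a b c N (a N) ∧ w ≠ b N ∧
        w ∉ nb2 a b c N (b N) := by
      intro w hw
      rw [hF0] at hw
      simp only [Finset.mem_union, Finset.mem_insert, not_or] at hw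
      tauto
    have e1 : ∀ w, w ∉ F1 → w ∉ F0 ∧ w ≠ x ∧ w ∉ nb2 a b c N x := by
      intro w hw
      rw [hF1] at hw
      simp only [Finset.mem_union, Finset.mem_insert, not_or] at hw
      tauto
    have e2 : ∀ w, w ∉ F2 → w ∉ F1 ∧ w ≠ y ∧ w ∉ nb2 a b c N y := by
      intro w hw
      rw [hF2] at hw
      simp only [Finset.mem_union, Finset.mem_insert, not_or] at hw
      tauto
    obtain ⟨x1, x2, x3, x4, x5⟩ := e0 x hxF
    obtain ⟨y0, y6, y7⟩ := e1 y hyF
    obtain ⟨y1, y2, y3, y4, y5⟩ := e0 y y0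
    obtain ⟨z0, z8, z9⟩ := e2 z hzF
    obtain ⟨z00, z6, z7⟩ := e1 z z0
    obtain ⟨z1, z2, z3, z4, z5⟩ := e0 z z00
    clear e0 e1 e2 hzF hyF hxF
    let a' : ℕ → V := Function.update a (N + 1) x
    let b' : ℕ → V := Function.update b (N + 1) y
    let c' : ℕ → V := Function.update c (N + 1) z
    have ha' : ∀ i ≤ N, a' i = a i := fun i hi => Function.update_of_ne (by omega) _ _
    have hb' : ∀ i ≤ N, b' i = b i := fun i hi => Function.update_of_ne (by omega) _ _
    have hc' : ∀ i ≤ N, c' i = c i := fun i hi => Function.update_of_ne (by omega) _ _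
    have hax : a' (N + 1) = x := Function.update_self _ _ _
    have hby : b' (N + 1) = y := Function.update_self _ _ _
    have hcz : c' (N + 1) = z := Function.update_self _ _ _
    have hEd : ∀ i < N, Ed a' b' c' i = Ed a b c i := by
      intro i hi
      simp only [Ed]
      rw [ha' i (by omega), hb' i (by omega), ha' (i + 1) (by omega), hb' (i + 1) (by omega),
        hc' (i + 1) (by omega)]
    have hEdN : Ed a' b' c' N = {a N, b N, x, y, z} := by
      simp only [Ed]
      rw [ha' N le_rfl, hb' N le_rfl, hax, hby, hcz]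
    have hch : IsChain' a' b' c' Z N :=
      h.congr hEd (fun i hi => ha' i (by omega)) (fun i hi => hb' i (by omega))
    have hco : ∀ p q, Co a' b' c' N p q → Co a b c N p q := by
      rintro p q ⟨i, hi, h1, h2⟩
      rw [hEd i hi] at h1 h2
      exact ⟨i, hi, h1, h2⟩
    have hnb2 : ∀ p q, q ∈ nb2 a' b' c' N p → q ∈ nb2 a b c N p := by
      intro p q hq
      rw [mem_nb2] at hq ⊢
      obtain ⟨w, h1, h2⟩ := hq
      exact ⟨w, hco _ _ h1, hco _ _ h2⟩
    have hdg : ∀ w, dg a' b' c' (N + 1) w =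
        dg a b c N w + if w ∈ Ed a' b' c' N then 1 else 0 := by
      intro w
      unfold dg
      rw [Finset.range_add_one, Finset.filter_insert]
      have hfe : (Finset.range N).filter (fun i => w ∈ Ed a' b' c' i) =
          (Finset.range N).filter (fun i => w ∈ Ed a b c i) := by
        apply Finset.filter_congr
        intro i hi
        rw [hEd i (Finset.mem_range.1 hi)]
      rw [hfe]
      split_ifs with hw
      · rw [Finset.card_insert_of_notMem]
        simp
      · rfl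
    refine ⟨a', b', c', ?_, ?_, ?_, ?_, ?_, ?_, ?_⟩
    · apply hch.extend
      · rw [hEdN]
        rw [Finset.card_insert_of_notMem, Finset.card_insert_of_notMem,
          Finset.card_insert_of_notMem, Finset.card_insert_of_notMem, Finset.card_singleton]
        · simpa using z8.symm
        · simp only [Finset.mem_insert, Finset.mem_singleton, not_or]
          exact ⟨y6.symm, z6.symm⟩
        · simp only [Finset.mem_insert, Finset.mem_singleton, not_or]
          exact ⟨x4.symm, y4.symm, z4.symm⟩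
        · simp only [Finset.mem_insert, Finset.mem_singleton, not_or]
          exact ⟨hab, x2.symm, y2.symm, z2.symm⟩
      · rw [hEdN, Finset.disjoint_left]
        intro w hw
        simp only [Finset.mem_insert, Finset.mem_singleton] at hw
        rcases hw with rfl | rfl | rfl | rfl | rfl <;> assumption
      · intro p hp q hq hpq hno hq2
        replace hq2 := hnb2 _ _ hq2
        have hp2 := nb2_symm hq2
        rw [hEdN] at hp hq
        rw [ha' N le_rfl, hb' N le_rfl] at hno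
        simp only [Finset.mem_insert, Finset.mem_singleton] at hp hq
        rcases hp with rfl | rfl | rfl | rfl | rfl <;> rcases hq with rfl | rfl | rfl | rfl | rfl
        all_goals first
          | exact hpq rfl
          | exact hno ⟨Or.inl rfl, Or.inr rfl⟩
          | exact hno ⟨Or.inr rfl, Or.inl rfl⟩
          | contradiction
    · rw [hax, hby]; exact y6.symm
    · rw [hax]; exact x1
    · rw [hby]; exact y1
    · intro w
      rw [hdg w]
      split_ifs with hw
      · rw [hEdN] at hw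
        simp only [Finset.mem_insert, Finset.mem_singleton] at hw
        rcases hw with rfl | rfl | rfl | rfl | rfl <;> omega
      · exact hdeg w
    · rw [hax, hdg x]
      split_ifs <;> omega
    · rw [hby, hdg y]
      split_ifs <;> omega

end Greedy

section Final

theorem le_tau {k : ℕ} {H : SimpleGraph (Fin k)} {V : Type} [Fintype V] {G : SimpleGraph V}
    {N : ℕ} (h : ∀ t < N, proc H G t ≠ proc H G (t + 1)) : N ≤ tau H G := by
  have hne : {t | proc H G t = proc H G (t + 1)}.Nonempty := by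
    let f : ℕ →o SimpleGraph V := ⟨fun t => proc H G t, fun s t hst => proc_mono H G hst⟩
    obtain ⟨n, hn⟩ := WellFoundedGT.monotone_chain_condition f
    exact ⟨n, hn (n + 1) (Nat.le_succ n)⟩
  have hmem := Nat.sInf_mem hne
  by_contra hlt
  push Not at hlt
  exact h _ hlt hmem

theorem le_maxTime {k : ℕ} {H : SimpleGraph (Fin k)} {n N : ℕ} (G : SimpleGraph (Fin n))
    (h : N ≤ tau H G) : N ≤ maxTime H n := by
  refine h.trans (le_csSup ?_ ⟨G, rfl⟩)
  exact (Set.finite_range (fun G : SimpleGraph (Fin n) => tau H G)).bddAbove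

theorem percSet_bdd {k : ℕ} (H : SimpleGraph (Fin k)) (n : ℕ) :
    BddAbove {m | ∃ G : SimpleGraph (Fin n), Percolating H G ∧ tau H G = m} := by
  refine BddAbove.mono ?_
    (Set.finite_range (fun G : SimpleGraph (Fin n) => tau H G)).bddAbove
  rintro m ⟨G, -, hG⟩
  exact ⟨G, hG⟩

theorem maxPercTime_le (n : ℕ) : maxPercTime HH n ≤ 121 * n + 18 := by
  unfold maxPercTime
  apply csSup_le'
  rintro m ⟨G, hG, rfl⟩
  have := upper hG
  rwa [Fintype.card_fin] at this

theorem tau_chain {n N : ℕ} {a b c : ℕ → Fin n} {Z : Finset (Fin n)}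
    (h : IsChain' a b c Z N) (hZ : Z.card = 7) : N ≤ maxTime HH n := by
  apply le_maxTime (Bg a b c Z N 0)
  apply le_tau
  intro t ht heq
  rw [proc_Bg h hZ t ht.le, proc_Bg h hZ (t + 1) ht] at heq
  apply link_not_adj h ht
  rw [heq]
  exact link_adj h ht

theorem maxTime_ge (K n : ℕ) (hn : 2 * (11 + 100 * (10 * K + 2) ^ 2) ≤ n) :
    K * n ≤ maxTime HH n := by
  obtain ⟨Z, -, hZ⟩ := Finset.exists_subset_card_eq
    (show 7 ≤ (Finset.univ : Finset (Fin n)).card by
      rw [Finset.card_univ, Fintype.card_fin]; omega)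
  obtain ⟨a, b, c, h, -⟩ := exists_chain (V := Fin n) hZ (m := 10 * K + 2) (K * n) (by
    rw [Fintype.card_fin]
    set D := 11 + 100 * (10 * K + 2) ^ 2 with hD
    have hD0 : 0 < D := by omega
    obtain ⟨r, hr⟩ : ∃ r, n = D + r := ⟨n - D, by omega⟩
    have hr1 : D ≤ r := by omega
    have h1 : n - D = r := by omega
    rw [h1, show 10 * K + 2 - 1 = 10 * K + 1 by omega]
    have h2 : n ≤ 2 * r := by omega
    have h3 : K * n ≤ K * (2 * r) := Nat.mul_le_mul_left K h2
    nlinarith)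
  exact tau_chain h hZ

theorem maxPercTime_pos {n : ℕ} (hn : 12 ≤ n) : 0 < maxPercTime HH n := by
  classical
  obtain ⟨X, -, hX⟩ := Finset.exists_subset_card_eq
    (show 5 ≤ (Finset.univ : Finset (Fin n)).card by
      rw [Finset.card_univ, Fintype.card_fin]; omega)
  obtain ⟨u, v, hu, hv, huv⟩ := Finset.one_lt_card_iff.1 (show 1 < X.card by omega)
  set G : SimpleGraph (Fin n) := (⊤ : SimpleGraph (Fin n)).deleteEdges {s(u, v)} with hG
  have hadj : ∀ p q, G.Adj p q ↔ p ≠ q ∧ ¬ ((p = u ∧ q = v) ∨ (p = v ∧ q = u)) := by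
    intro p q
    simp [hG, deleteEdges_adj]
  have hnot : ¬ G.Adj u v := by
    rw [hadj]
    tauto
  have hSc : G.IsClique ((Finset.univ \ X : Finset (Fin n)) : Set (Fin n)) := by
    intro p hp q hq hpq
    rw [hadj]
    refine ⟨hpq, ?_⟩
    have hp' : p ∉ X := by simpa using hp
    rintro (⟨rfl, rfl⟩ | ⟨rfl, rfl⟩)
    · exact hp' hu
    · exact hp' hv
  have hstep : (next HH G).Adj u v := by
    refine k5_rule hX hu hv huv ?_ ?_ hSc (Finset.disjoint_sdiff)
    · intro p hp q hq hpq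
      by_cases h : (p = u ∧ q = v) ∨ (p = v ∧ q = u)
      · exact Or.inr h
      · exact Or.inl ((hadj p q).2 ⟨hpq, h⟩)
    · rw [Finset.card_sdiff_of_subset (Finset.subset_univ X), Finset.card_univ, hX,
        Fintype.card_fin]
      omega
  have hp1 : proc HH G 1 = ⊤ := by
    rw [show (1 : ℕ) = 0 + 1 from rfl, proc_succ, eq_top_iff]
    intro p q hpq
    by_cases h : (p = u ∧ q = v) ∨ (p = v ∧ q = u)
    · rcases h with ⟨rfl, rfl⟩ | ⟨rfl, rfl⟩
      · exact hstep
      · exact hstep.symm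
    · exact le_next _ _ ((hadj p q).2 ⟨hpq, h⟩)
  have hp2 : proc HH G 2 = ⊤ := by
    rw [eq_top_iff, ← hp1]
    exact proc_mono _ _ (by omega)
  have htau : tau HH G = 1 := by
    apply le_antisymm
    · refine Nat.sInf_le ?_
      show proc HH G 1 = proc HH G (1 + 1)
      rw [hp1]
      exact hp2.symm
    · apply le_tau
      intro t ht heq
      have ht0 : t = 0 := by omega
      subst ht0
      rw [show (0 : ℕ) + 1 = 1 from rfl, hp1] at heq
      apply hnot
      have h0 : proc HH G 0 = G := rfl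
      rw [← h0, heq]
      exact huv
  have hperc : Percolating HH G := by
    unfold Percolating
    rw [htau, hp1]
  have h1 : 1 ≤ maxPercTime HH n := le_csSup (percSet_bdd HH n) ⟨G, hperc, htau⟩
  omega

/-- **Disproof.**  There is a graph `H` for which `M_H(n)` is not `Θ(M'_H(n))`: for this `H`,
`M'_H(n) ≤ 121 n + 18` for all `n`, while `M_H(n) / n → ∞`; hence `M_H(n) / M'_H(n) → ∞`
(and `M'_H(n) > 0` for `n ≥ 12`, so the quotient makes sense). -/
theorem result : ∃ (k : ℕ) (H : SimpleGraph (Fin k)),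
    (∀ n, 12 ≤ n → 0 < maxPercTime H n) ∧
    (∀ n, maxPercTime H n ≤ 121 * n + 18) ∧
    Tendsto (fun n : ℕ => (maxTime H n : ℝ) / (n : ℝ)) atTop atTop ∧
    Tendsto (fun n : ℕ => (maxTime H n : ℝ) / (maxPercTime H n : ℝ)) atTop atTop ∧
    ¬ ((fun n : ℕ => (maxTime H n : ℝ)) =Θ[atTop] (fun n : ℕ => (maxPercTime H n : ℝ))) := by
  have hT1 : Tendsto (fun n : ℕ => (maxTime HH n : ℝ) / (n : ℝ)) atTop atTop := by
    rw [tendsto_atTop]
    intro B
    obtain ⟨K, hK⟩ := exists_nat_ge B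
    filter_upwards [eventually_ge_atTop (2 * (11 + 100 * (10 * K + 2) ^ 2))] with n hn
    have hn0 : (0 : ℝ) < n := by
      have : 0 < n := by omega
      exact_mod_cast this
    rw [le_div_iff₀ hn0]
    have h1 : ((K * n : ℕ) : ℝ) ≤ maxTime HH n := by exact_mod_cast maxTime_ge K n hn
    push_cast at h1
    nlinarith
  have hT2 : Tendsto (fun n : ℕ => (maxTime HH n : ℝ) / (maxPercTime HH n : ℝ)) atTop atTop := by
    rw [tendsto_atTop]
    intro B
    have hev := (tendsto_atTop.1 hT1) (139 * |B|)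
    filter_upwards [hev, eventually_ge_atTop 12] with n hn hn12
    have hn0 : (0 : ℝ) < n := by
      have : 0 < n := by omega
      exact_mod_cast this
    have hpos : (0 : ℝ) < maxPercTime HH n := by exact_mod_cast maxPercTime_pos hn12
    rw [le_div_iff₀ hn0] at hn
    rw [le_div_iff₀ hpos]
    have h1 : (maxPercTime HH n : ℝ) ≤ 139 * n := by
      have h2 := maxPercTime_le n
      have h3 : maxPercTime HH n ≤ 139 * n := by omega
      exact_mod_cast h3
    have h4 := le_abs_self B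
    have h5 := abs_nonneg B
    calc B * (maxPercTime HH n : ℝ) ≤ |B| * maxPercTime HH n :=
          mul_le_mul_of_nonneg_right h4 hpos.le
      _ ≤ |B| * (139 * n) := mul_le_mul_of_nonneg_left h1 h5
      _ = 139 * |B| * n := by ring
      _ ≤ maxTime HH n := hn
  refine ⟨12, HH, fun n hn => maxPercTime_pos hn, maxPercTime_le, hT1, hT2, ?_⟩
  intro hTheta
  obtain ⟨C, hC⟩ := hTheta.1.bound
  obtain ⟨n, h1, h2, h3⟩ := (hC.and ((tendsto_atTop.1 hT2 (C + 1)).and
    (eventually_ge_atTop 12))).exists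
  have hpos : (0 : ℝ) < maxPercTime HH n := by exact_mod_cast maxPercTime_pos h3
  rw [le_div_iff₀ hpos] at h2
  rw [Real.norm_of_nonneg (Nat.cast_nonneg _), Real.norm_of_nonneg (Nat.cast_nonneg _)] at h1
  nlinarith

end Final

end Pool.Agent.Results.MP_000f96_co.PercolatingIsFaster
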